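import Pool.Agent.H39.GEN.LabN
import Pool.Agent.H99.GEN.GrC
import Pool.Agent.H45.EXA.Vgr

/-!
# Closed labels from chains and from the side information

`tch_lbp34`: a chain of two-sided labels of a coordinate over any list of other coordinates gives,
on a part of positive proportion, a closed label of the coordinate over all the others, at the
window of the length of the radius.
`vel_lbp34`: a label which is a function of the side information has the velocities.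
`win_big34`: labels for windows which are larger than the resolution.
-/

set_option autoImplicit false

namespace Pool.GEN.N34

open Finset Real MvPolynomial
open Pool.Agent.H49.Ent Pool.Agent.H32.Dense Pool.STK Pool.KA Pool.KSAT Pool.K2S Pool.PB Pool.S6C
open Pool.GEN Pool.GRD
open Pool.LBN (Tch cof cof_lt cof_ge cof_len)
open Pool.STAT.CLO (Inj LV)
open Pool.FLF (Fam.sub)

variable {m J : ℕ}

/-- The time deficit of the members of a class, with the defect zero allowed. -/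
theorem tm_sub34 {S : PCl m} {C₀ : ℝ} (hC₀ : 0 ≤ C₀) (h : TmC S C₀) (τ : ℝ) (J : ℕ) (F : Fam m J)
    (A : F.Ω → Prop) (hA : 0 < Pe F.p A) (hτ : 0 ≤ τ) (hS : S.St τ J F A) :
    (Fam.sub F A hA).Tm (C₀ * τ * J) := by
  have hJ : (0 : ℝ) ≤ J := Nat.cast_nonneg J
  have key : ∀ τ' : ℝ, τ < τ' → (Fam.sub F A hA).Tm (C₀ * τ' * J) := by
    intro τ' hτ'
    have h1 := h.sub (τ := τ') (τ' := 0) (hτ.trans_lt hτ') le_rfl (S.mono hτ'.le hS)
      (fun _ hω => hω) (by simp) hA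
    rwa [add_zero] at h1
  unfold Fam.Tm at key ⊢
  refine le_of_forall_pos_le_add fun ε hε => ?_
  have hc : 0 < C₀ * J + 1 := by positivity
  have h1 := key (τ + ε / (C₀ * J + 1)) (by
    have : 0 < ε / (C₀ * J + 1) := div_pos hε hc
    linarith)
  have h2 : C₀ * (τ + ε / (C₀ * J + 1)) * J ≤ C₀ * τ * J + ε := by
    have e1 : C₀ * (τ + ε / (C₀ * J + 1)) * J = C₀ * τ * J + ε * (C₀ * J / (C₀ * J + 1)) := by
      field_simp
    have e2 : C₀ * J / (C₀ * J + 1) ≤ 1 := by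
      rw [div_le_one hc]
      linarith
    rw [e1]
    have := mul_le_mul_of_nonneg_left e2 hε.le
    linarith
  linarith

/-- **Closed labels from chains.** -/
theorem tch_lbp34 (m K : ℕ) : ∃ c' : ℕ, 1 ≤ c' ∧ ∀ (J : ℕ) (F : Fam m J) (l : List (Fin m))
    (k : Fin m) (a w P : ℕ) (A : F.Ω → Prop), l.Nodup → k ∉ l → a ≤ J → a + c' ≤ P →
    Tch l k K a w P J F A →
    ∃ B : F.Ω → Prop, Sub B A ∧ Pe F.p A ≤ c' * Pe F.p B ∧
      ∃ (V : Type) (z : PtT F → V) (z' : LnT F → V) (G : V → MvPolynomial (Option (Fin m)) ℝ),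
        LbP F (univ.erase k) k c' J a (P - a - c') B z z' G := by
  classical
  have h1 := fun r : ℕ => clo1 r K
  choose c hc1 hc using h1
  refine ⟨∑ r ∈ range (m + 1), c r, ?_, ?_⟩
  · exact (hc1 0).trans (Finset.single_le_sum (f := c) (fun _ _ => Nat.zero_le _)
      (Finset.mem_range.2 (by omega)))
  intro J F l k a w P A hl hkl haJ hP h
  obtain ⟨a₀, w₀, e, g, h1, h2, h3, h4, h5, G, H, h⟩ := h
  have hlen : l.length + 1 ≤ m := by
    have e1 : (k :: l).Nodup := List.nodup_cons.2 ⟨hkl, hl⟩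
    have e2 := e1.length_le_card
    rw [Fintype.card_fin, List.length_cons] at e2
    exact e2
  have hcle : c (l.length + 1) ≤ ∑ r ∈ range (m + 1), c r :=
    Finset.single_le_sum (f := c) (fun _ _ => Nat.zero_le _) (Finset.mem_range.2 (by omega))
  obtain ⟨c', hc'⟩ : ∃ c', c' = ∑ r ∈ range (m + 1), c r := ⟨_, rfl⟩
  rw [← hc'] at hP hcle ⊢
  have hinj : Inj (cof l k) (l.length + 1) := by
    intro i hi j hj hij
    rcases Nat.lt_or_ge i l.length with hi' | hi' <;> rcases Nat.lt_or_ge j l.length with hj' | hj'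
    · rw [cof_lt hi', cof_lt hj'] at hij
      exact (hl.getElem_inj_iff).1 hij
    · rw [cof_lt hi', cof_ge hj'] at hij
      exact absurd (hij ▸ List.getElem_mem hi') hkl
    · rw [cof_ge hi', cof_lt hj'] at hij
      exact absurd (hij ▸ List.getElem_mem hj') hkl
    · omega
  obtain ⟨z, z', P', B, hBA, hPe, -, -, -, -, hlb⟩ := hc (l.length + 1) m J F (cof l k)
    (fun _ => K) a₀ w₀ e g A G H h1 (h2.trans haJ) hinj (fun _ _ => le_rfl) h
  have h6 : c (l.length + 1) ≤ g l.length := by omega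
  have h7 := (hlb l.length (Nat.lt_succ_self _) h6).win h2 haJ
  rw [cof_len] at h7
  refine ⟨B, hBA, hPe.trans ?_, LV, _, _, _, h7.mono (fun i hi => ?_) hcle (by omega)⟩
  · refine mul_le_mul_of_nonneg_right ?_ (Pe_nonneg F.isLaw _)
    exact_mod_cast hcle
  · obtain ⟨j, hj, rfl⟩ := Finset.mem_image.1 hi
    rw [Finset.mem_range] at hj
    rw [cof_lt hj]
    refine Finset.mem_erase.2 ⟨fun h8 => hkl (h8 ▸ List.getElem_mem hj), Finset.mem_univ _⟩

/-- **The velocities of a label** which is a function of the side information, in a class. -/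
theorem vel_lbp34 {S : PCl m} {C₀ : ℝ} (hC₀ : 0 ≤ C₀) (htm : TmC S C₀) (K : ℕ) {w δ : ℝ}
    (hw1 : w < 1) (hw0 : 0 ≤ w) (hδ : 0 < δ) :
    ∃ τ₀ : ℝ, 0 < τ₀ ∧ ∃ J₀ : ℕ, ∀ J ≥ J₀, ∀ (F : Fam m J) (A : F.Ω → Prop), S.St τ₀ J F A →
    ∀ (I : Finset (Fin m)) (k : Fin m) (e ρ P : ℕ) (G : F.ζ → MvPolynomial (Option (Fin m)) ℝ),
    ⌊δ * J⌋₊ ≤ P → (∀ z, (G z).totalDegree ≤ K) →
    (∀ z, ∀ b b' : Option (Fin m) → ℝ, b none = b' none →
      (∀ i ∈ I, b (some i) = b' (some i)) → eval b (G z) = eval b' (G z)) →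
    (∀ ω, 0 < F.p ω → A ω → |F.x ω k - eval (bt F ω) (G (F.Z ω))| ≤ 1 / 2 ^ P) →
    (∀ ω, 0 < F.p ω → A ω → ∀ b : Option (Fin m) → ℝ, (∀ o, |b o - bt F ω o| ≤ 1 / 2 ^ ρ) →
      ∀ o, |eval b (pderiv o (G (F.Z ω)))| ≤ 2 ^ e) →
    ∃ B : F.Ω → Prop, Sub B A ∧ Pe F.p A / 2 ≤ Pe F.p B ∧
      LbOK F I k K e J ⌊w * J⌋₊ ρ (P - ⌊δ * J⌋₊) B (fun y => y.2.2) (fun s => s.2.1) G := by
  classical
  obtain ⟨C, hC, hvel⟩ := vel_one m K
  have hl2 : 0 < Real.log 2 := Real.log_pos one_lt_two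
  obtain ⟨η, hη⟩ : ∃ η : ℝ, η = min (δ * Real.log 2 / (4 * C)) ((1 - w) * Real.log 2 / (2 * C)) :=
    ⟨_, rfl⟩
  have hC0 : 0 < C := by linarith
  have hη0 : 0 < η := by
    rw [hη]
    refine lt_min (by positivity) (div_pos (mul_pos (by linarith) hl2) (by positivity))
  have hη1 : C * η ≤ δ / 4 * Real.log 2 := by
    have e1 : η ≤ δ * Real.log 2 / (4 * C) := by
      rw [hη]
      exact min_le_left _ _
    have e2 : C * (δ * Real.log 2 / (4 * C)) = δ / 4 * Real.log 2 := by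
      field_simp
    rw [← e2]
    exact mul_le_mul_of_nonneg_left e1 hC0.le
  have hη2 : C * η ≤ (1 - w) * Real.log 2 / 2 := by
    have e1 : η ≤ (1 - w) * Real.log 2 / (2 * C) := by
      rw [hη]
      exact min_le_right _ _
    have e2 : C * ((1 - w) * Real.log 2 / (2 * C)) = (1 - w) * Real.log 2 / 2 := by
      field_simp
    rw [← e2]
    exact mul_le_mul_of_nonneg_left e1 hC0.le
  obtain ⟨τ₀, hτ₀⟩ : ∃ τ₀ : ℝ, τ₀ = η / (C₀ + 1) := ⟨_, rfl⟩
  have hτ0 : 0 < τ₀ := by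
    rw [hτ₀]
    positivity
  have hτ1 : C₀ * τ₀ ≤ η := by
    have e1 : (C₀ + 1) * τ₀ = η := by
      rw [hτ₀]
      field_simp
    linarith
  obtain ⟨J₀, hJ₀⟩ := exists_nat_ge (4 * C / (δ * Real.log 2) + 2 * C / ((1 - w) * Real.log 2) +
    4 / δ)
  refine ⟨τ₀, hτ0, J₀, ?_⟩
  intro J hJ F A hS I k e ρ P G hle hdeg hdep hpos hlip
  have hJ' : (J₀ : ℝ) ≤ J := by exact_mod_cast hJ
  have hJ0 : (0 : ℝ) ≤ J := Nat.cast_nonneg J
  have hw1' : 0 < 1 - w := by linarith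
  have q1 : 0 < 4 * C / (δ * Real.log 2) := by positivity
  have q2 : 0 < 2 * C / ((1 - w) * Real.log 2) := by positivity
  have q3 : 0 < 4 / δ := by positivity
  have f1 : C ≤ δ / 4 * Real.log 2 * J := by
    have e1 : 4 * C / (δ * Real.log 2) ≤ J := by linarith
    rw [div_le_iff₀ (by positivity)] at e1
    linarith
  have f2 : C ≤ (1 - w) * Real.log 2 / 2 * J := by
    have e1 : 2 * C / ((1 - w) * Real.log 2) ≤ J := by linarith
    rw [div_le_iff₀ (by positivity)] at e1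
    linarith
  have f3 : 4 ≤ δ * J := by
    have e1 : 4 / δ ≤ J := by linarith
    rw [div_le_iff₀ hδ] at e1
    linarith
  have hA : 0 < Pe F.p A := (htm τ₀ J F A hτ0 hS).1
  -- the part with positive probabilities
  obtain ⟨A', hA'⟩ : ∃ A' : F.Ω → Prop, A' = fun ω => A ω ∧ 0 < F.p ω := ⟨_, rfl⟩
  have hPA : Pe F.p A' = Pe F.p A := by
    rw [hA', Pe_eq, Pe_eq]
    refine Finset.sum_congr rfl fun ω _ => ?_
    by_cases h1 : A ω
    · by_cases h2 : 0 < F.p ω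
      · simp [h1, h2]
      · have : F.p ω = 0 := le_antisymm (not_lt.1 h2) (F.isLaw.nonneg ω)
        simp [this]
    · simp [h1]
  have hA'0 : 0 < Pe F.p A' := by rw [hPA]; exact hA
  have hS' : S.St τ₀ J F A' := by
    have h1 := S.res (τ' := 0) (B := A') le_rfl hS (fun ω hω => by
      rw [hA'] at hω
      exact hω.1) (by rw [hPA]; simp)
    rwa [add_zero] at h1
  have hTm := tm_sub34 hC₀ htm τ₀ J F A' hA'0 hτ0.le hS'
  have hwJ : ⌊w * J⌋₊ ≤ J := fl_le hw1.le J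
  have hθ : C * (C₀ * τ₀ * J + 1) ≤ C * η * J + C := by
    have e1 : C₀ * τ₀ * J ≤ η * J := mul_le_mul_of_nonneg_right hτ1 hJ0
    have e2 := mul_le_mul_of_nonneg_left e1 hC0.le
    linarith
  obtain ⟨B, hBA, hPB, hB⟩ := hvel J F A' hA'0 ⌊w * J⌋₊ (fun s => G s.2.1) k (1 / 2 ^ P)
    (C₀ * τ₀ * J) hwJ (fun s => hdeg _) (by positivity) (by positivity) hTm (by
      have e1 := mul_le_mul_of_nonneg_right hη2 hJ0
      have e2 : (⌊w * (J : ℝ)⌋₊ : ℝ) ≤ w * J := Nat.floor_le (by positivity)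
      have e3 : ((J : ℝ) - w * J) * Real.log 2 ≤ (J - (⌊w * (J : ℝ)⌋₊ : ℝ)) * Real.log 2 :=
        mul_le_mul_of_nonneg_right (by linarith) hl2.le
      linarith) (fun ω hω => by
        rw [hA'] at hω
        exact hpos ω hω.2 hω.1)
  have hBA' : ∀ ω, B ω → A ω ∧ 0 < F.p ω := fun ω hω => by
    have := hBA ω hω
    rwa [hA'] at this
  refine ⟨B, fun ω hω => (hBA' ω hω).1, by rw [← hPA]; exact hPB, hdeg, hdep, fun ω _ => rfl,
    fun ω hω => ?_, fun ω hω => ?_, fun ω hω => hlip ω (hBA' ω hω).2 (hBA' ω hω).1⟩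
  · exact (hpos ω (hBA' ω hω).2 (hBA' ω hω).1).trans (inv_mono (Nat.sub_le _ _))
  · refine (hB ω hω).trans ?_
    have e1 : Real.exp (C * (C₀ * τ₀ * J + 1)) ≤ 2 ^ ⌊δ * (J : ℝ)⌋₊ := by
      have e2 : (2 : ℝ) ^ ⌊δ * (J : ℝ)⌋₊ = Real.exp (⌊δ * (J : ℝ)⌋₊ * Real.log 2) := by
        rw [mul_comm (⌊δ * (J : ℝ)⌋₊ : ℝ) (Real.log 2), Real.exp_mul,
          Real.exp_log (by norm_num), Real.rpow_natCast]
      rw [e2]
      refine Real.exp_le_exp.2 ?_
      have e3 := Nat.lt_floor_add_one (δ * (J : ℝ))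
      have e4 := mul_le_mul_of_nonneg_right hη1 hJ0
      have e5 : (δ * J / 2) * Real.log 2 ≤ ⌊δ * (J : ℝ)⌋₊ * Real.log 2 :=
        mul_le_mul_of_nonneg_right (by linarith) hl2.le
      linarith
    rw [mul_one_div, div_le_div_iff₀ (by positivity) (by positivity)]
    have e6 : (2 : ℝ) ^ P = 2 ^ (P - ⌊δ * (J : ℝ)⌋₊) * 2 ^ ⌊δ * (J : ℝ)⌋₊ := by
      rw [← pow_add, Nat.sub_add_cancel hle]
    rw [e6]
    calc Real.exp (C * (C₀ * τ₀ * J + 1)) * 2 ^ ⌊w * (J : ℝ)⌋₊ * 2 ^ (P - ⌊δ * (J : ℝ)⌋₊) ≤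
        2 ^ ⌊δ * (J : ℝ)⌋₊ * 2 ^ ⌊w * (J : ℝ)⌋₊ * 2 ^ (P - ⌊δ * (J : ℝ)⌋₊) :=
          mul_le_mul_of_nonneg_right (mul_le_mul_of_nonneg_right e1 (by positivity))
            (by positivity)
      _ = _ := by ring

/-- A constant label. -/
theorem triv_lb34 {F : Fam m J} (hG : ∀ ω i, 0 ≤ F.x ω i ∧ F.x ω i ≤ 2) (I : Finset (Fin m))
    (k : Fin m) (K e w ρ : ℕ) (A : F.Ω → Prop) :
    LbOK F I k K e J w ρ 0 A (fun y => y.2.2) (fun s => s.2.1) (fun _ => C 1) := by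
  refine ⟨fun v => ?_, fun v b b' _ _ => ?_, fun ω _ => rfl, fun ω _ => ?_, fun ω _ => ?_,
    fun ω _ b _ o => ?_⟩
  · rw [totalDegree_C]
    exact Nat.zero_le _
  · rw [eval_C, eval_C]
  · rw [eval_C, pow_zero, div_one, abs_le]
    have := hG ω k
    constructor <;> linarith [this.1, this.2]
  · simp only [pderiv_C, map_zero, mul_zero, Finset.sum_const_zero, sub_zero, pow_zero, div_one]
    exact (F.dir ω k).trans (one_le_pow₀ (by norm_num))
  · rw [pderiv_C, map_zero, abs_zero]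
    positivity

/-- Labels for windows which may be larger than the resolution. -/
theorem win_big34 {F : Fam m J} {I : Finset (Fin m)} {k : Fin m} {K e r w w' ρ P : ℕ}
    {A : F.Ω → Prop} (h : Lb F I k K e r w ρ P A) (hw : w ≤ J) (hw' : J ≤ w') :
    Lb F I k K e r w' ρ P A := by
  obtain ⟨V, z, z', G, h⟩ := h
  refine ⟨V, z, fun s => z' (s.1, s.2.1, s.2.2 / 2 ^ (J - w)), G, ?_⟩
  have e : ∀ ω, z' ((slam F w' ω).1, (slam F w' ω).2.1, (slam F w' ω).2.2 / 2 ^ (J - w)) =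
      z' (slam F w ω) := by
    intro ω
    have e1 : F.T1 w' ω / 2 ^ (J - w) = F.T1 w ω := by
      unfold Fam.T1
      rw [Nat.sub_eq_zero_of_le hw', pow_zero, Nat.div_one]
    show z' (F.l ω, F.Z ω, F.T1 w' ω / 2 ^ (J - w)) = z' (F.l ω, F.Z ω, F.T1 w ω)
    rw [e1]
  refine ⟨h.deg, h.dep, fun ω hω => (h.cls ω hω).trans (e ω).symm, fun ω hω => ?_,
    fun ω hω => ?_, fun ω hω b hb i => ?_⟩
  · simp only [e]
    exact h.pos ω hω
  · simp only [e]
    refine (h.vel ω hω).trans ?_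
    exact div_le_div_of_nonneg_right (pow_le_pow_right₀ (by norm_num) (hw.trans hw'))
      (by positivity)
  · simp only [e]
    exact h.lip ω hω b hb i

/-- All monotonicities, for all windows. -/
theorem Lb_mono34 {F : Fam m J} {I I' : Finset (Fin m)} {k : Fin m}
    {K K' e e' r r' w w' ρ ρ' P P' : ℕ} {A : F.Ω → Prop} (h : Lb F I k K e r w ρ P A)
    (hI : I ⊆ I') (hK : K ≤ K') (he : e ≤ e') (hr : r ≤ r') (hw : w ≤ w') (hwJ : w ≤ J)
    (hρ : ρ ≤ ρ') (hP : P' ≤ P) : Lb F I' k K' e' r' w' ρ' P' A := by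
  rcases le_total w' J with h1 | h1
  · exact h.mono hI hK he hr hw h1 hρ hP
  · exact win_big34 (h.mono hI hK he hr le_rfl hwJ hρ hP) hwJ h1

end Pool.GEN.N34
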