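import Pool.Agent.H1.GEN.Clx
import Pool.Agent.H71.GEN.Lip

/-!
# The last own number of the base

`own_pure34`: if the coordinates `x j` are determined up to `δj j` by the first coordinates (to
`k` digits) and the coordinate `x v` is determined up to `δ` by all the others (to `J` digits), the
entropy of all the digits is at most the sum of the logarithms.
`own_last34`: in a class of the exactness theorem in which the base coordinates are full up to `ρ'`
given closed functions, a closed label of one base coordinate over the others has a precision at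
most the largest number of the base, up to `ρ'` and the slack.
-/

set_option autoImplicit false

namespace Pool.GEN.N34

open Finset Real MvPolynomial
open Pool.Agent.H49.Ent Pool.Agent.H32.Dense Pool.STK Pool.KA Pool.KSAT Pool.K2S Pool.PB Pool.S6C
open Pool.ZCL Pool.GEN

variable {Ω T : Type} [Fintype Ω]

/-- The chain rule over the coordinates. -/
theorem CH_pre34 {q : Ω → ℝ} (hq : ∀ ω, 0 ≤ q ω) : ∀ {n : ℕ} (X : Ω → Fin n → ℤ) (W : Ω → T),
    CH q X W ≤ ∑ j, CH q (fun ω => X ω j)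
      (fun ω => ((fun i => if i < j then X ω i else 0 : Fin n → ℤ), W ω)) := by
  intro n
  induction n with
  | zero =>
    intro X W
    rw [CH_eq_zero hq (fun ω ω' _ _ _ => funext fun i => i.elim0)]
    simp
  | succ n ih =>
    intro X W
    have h1 := CH_le_add hq X (fun ω (i : Fin n) => X ω i.castSucc) W
    have h2 : CH q X (fun ω => ((fun i : Fin n => X ω i.castSucc), W ω)) ≤
        CH q (fun ω => X ω (Fin.last n)) (fun ω => ((fun i : Fin n => X ω i.castSucc), W ω)) := by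
      refine CH_mono_left hq ?_
      intro ω ω' _ _ e
      obtain ⟨e1, e2⟩ := Prod.ext_iff.1 e
      obtain ⟨e3, -⟩ := Prod.ext_iff.1 e2
      funext i
      refine Fin.lastCases ?_ (fun j => ?_) i
      · exact e1
      · exact congrFun e3 j
    have h3 : CH q (fun ω => X ω (Fin.last n)) (fun ω => ((fun i : Fin n => X ω i.castSucc), W ω)) =
        CH q (fun ω => X ω (Fin.last n)) (fun ω => ((fun i => if i < Fin.last n then X ω i else 0 :
          Fin (n + 1) → ℤ), W ω)) := by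
      refine CH_congr hq (fun _ _ _ _ e => (Prod.ext_iff.1 e).1)
        (fun _ _ _ _ e => (Prod.ext_iff.1 e).1) ?_ ?_
      · intro ω ω' _ _ e
        obtain ⟨e1, e2⟩ := Prod.ext_iff.1 e
        refine Prod.ext (funext fun i => ?_) e2
        show (if i < Fin.last n then X ω i else 0) = if i < Fin.last n then X ω' i else 0
        refine Fin.lastCases ?_ (fun j => ?_) i
        · rw [if_neg (lt_irrefl _), if_neg (lt_irrefl _)]
        · rw [if_pos (Fin.castSucc_lt_last j), if_pos (Fin.castSucc_lt_last j)]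
          exact congrFun e1 j
      · intro ω ω' _ _ e
        obtain ⟨e1, e2⟩ := Prod.ext_iff.1 e
        refine Prod.ext (funext fun j => ?_) e2
        have e3 := congrFun e1 j.castSucc
        simp only [if_pos (Fin.castSucc_lt_last j)] at e3
        exact e3
    have h4 := ih (fun ω (i : Fin n) => X ω i.castSucc) W
    rw [Fin.sum_univ_castSucc]
    refine h1.trans (add_le_add (h4.trans (le_of_eq ?_)) (h2.trans h3.le))
    refine Finset.sum_congr rfl fun j _ => ?_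
    refine CH_congr hq (fun _ _ _ _ e => (Prod.ext_iff.1 e).1)
        (fun _ _ _ _ e => (Prod.ext_iff.1 e).1) ?_ ?_
    · intro ω ω' _ _ e
      obtain ⟨e1, e2⟩ := Prod.ext_iff.1 e
      refine Prod.ext (funext fun i => ?_) e2
      show (if i < j.castSucc then X ω i else 0) = if i < j.castSucc then X ω' i else 0
      refine Fin.lastCases ?_ (fun l => ?_) i
      · rw [if_neg (not_lt.2 (Fin.le_last _)), if_neg (not_lt.2 (Fin.le_last _))]
      · have e3 := congrFun e1 l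
        simp only [Fin.castSucc_lt_castSucc_iff]
        exact e3
    · intro ω ω' _ _ e
      obtain ⟨e1, e2⟩ := Prod.ext_iff.1 e
      refine Prod.ext (funext fun l => ?_) e2
      have e3 := congrFun e1 l.castSucc
      simp only [Fin.castSucc_lt_castSucc_iff] at e3
      exact e3

/-- A real function which is determined up to `δ`. -/
theorem CH_det34 {q : Ω → ℝ} (hq : IsLaw q) (x : Ω → ℝ) (U : Ω → T) (k : ℕ) {δ : ℝ}
    (h : ∀ ω ω', 0 < q ω → 0 < q ω' → U ω = U ω' → |x ω - x ω'| ≤ δ) :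
    CH q (fun ω => ⌊(2 : ℝ) ^ k * x ω⌋) U ≤ Real.log (2 * (2 ^ k * δ + 1) + 1) := by
  refine (CH_le_int hq.nonneg hq.sum_one _ U (fun _ => 2 ^ k * δ + 1) ?_).trans (le_of_eq ?_)
  · intro ω ω' h1 h2 h3
    have h4 := h ω ω' h1 h2 h3
    have h5 : |(2 : ℝ) ^ k * x ω - 2 ^ k * x ω'| ≤ 2 ^ k * δ := by
      rw [← mul_sub, abs_mul, abs_of_pos (by positivity : (0 : ℝ) < 2 ^ k)]
      exact mul_le_mul_of_nonneg_left h4 (by positivity)
    have e1 := Int.floor_le ((2 : ℝ) ^ k * x ω)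
    have e2 := Int.lt_floor_add_one ((2 : ℝ) ^ k * x ω)
    have e3 := Int.floor_le ((2 : ℝ) ^ k * x ω')
    have e4 := Int.lt_floor_add_one ((2 : ℝ) ^ k * x ω')
    push_cast
    rw [abs_le] at h5 ⊢
    constructor <;> linarith only [h5.1, h5.2, e1, e2, e3, e4]
  · unfold Ex
    rw [← Finset.sum_mul, hq.sum_one, one_mul]

/-- **The entropy of coordinates one of which is determined by the others.** -/
theorem own_pure34 {q : Ω → ℝ} (hq : IsLaw q) {n : ℕ} (x : Ω → Fin n → ℝ) (W : Ω → T) {k J : ℕ}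
    (hk : k ≤ J) (v : Fin n) {δ : ℝ} {δj : Fin n → ℝ}
    (hj : ∀ ω ω', 0 < q ω → 0 < q ω' → W ω = W ω' → ∀ j,
      (∀ i < j, ⌊(2 : ℝ) ^ k * x ω i⌋ = ⌊(2 : ℝ) ^ k * x ω' i⌋) → |x ω j - x ω' j| ≤ δj j)
    (hv : ∀ ω ω', 0 < q ω → 0 < q ω' → W ω = W ω' →
      (∀ i, i ≠ v → ⌊(2 : ℝ) ^ J * x ω i⌋ = ⌊(2 : ℝ) ^ J * x ω' i⌋) → |x ω v - x ω' v| ≤ δ) :
    CH q (fun ω i => ⌊(2 : ℝ) ^ J * x ω i⌋) W ≤
      ∑ j, Real.log (2 * (2 ^ k * δj j + 1) + 1) + ((n : ℝ) - 1) * (((J : ℝ) - k) * Real.log 2) +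
        Real.log (2 * (2 ^ J * δ + 1) + 1) := by
  classical
  have hq0 := hq.nonneg
  obtain ⟨B, hB⟩ : ∃ B : Ω → Fin n → ℤ, B = fun ω i => if i = v then 0 else
      ⌊(2 : ℝ) ^ J * x ω i⌋ := ⟨_, rfl⟩
  -- the coordinate `v`
  have h1 := CH_le_add hq0 (fun ω i => ⌊(2 : ℝ) ^ J * x ω i⌋) B W
  have h2 : CH q (fun ω i => ⌊(2 : ℝ) ^ J * x ω i⌋) (fun ω => (B ω, W ω)) ≤
      CH q (fun ω => ⌊(2 : ℝ) ^ J * x ω v⌋) (fun ω => (B ω, W ω)) := by
    refine CH_mono_left hq0 ?_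
    intro ω ω' _ _ e
    obtain ⟨e1, e2⟩ := Prod.ext_iff.1 e
    obtain ⟨e3, -⟩ := Prod.ext_iff.1 e2
    funext i
    by_cases hi : i = v
    · subst hi
      exact e1
    · have e4 := congrFun e3 i
      rw [hB] at e4
      simp only [if_neg hi] at e4
      exact e4
  have h3 : CH q (fun ω => ⌊(2 : ℝ) ^ J * x ω v⌋) (fun ω => (B ω, W ω)) ≤
      Real.log (2 * (2 ^ J * δ + 1) + 1) := by
    refine CH_det34 hq _ _ J ?_
    intro ω ω' a1 a2 a3
    obtain ⟨e1, e2⟩ := Prod.ext_iff.1 a3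
    refine hv ω ω' a1 a2 e2 fun i hi => ?_
    have e4 := congrFun e1 i
    rw [hB] at e4
    simp only [if_neg hi] at e4
    exact e4
  -- the other coordinates
  have h4 := CH_le_add hq0 B (fun ω i => ⌊(2 : ℝ) ^ k * x ω i⌋) W
  have h5 : CH q (fun ω i => ⌊(2 : ℝ) ^ k * x ω i⌋) W ≤
      ∑ j, Real.log (2 * (2 ^ k * δj j + 1) + 1) := by
    refine (CH_pre34 hq0 (fun ω i => ⌊(2 : ℝ) ^ k * x ω i⌋) W).trans
      (Finset.sum_le_sum fun j _ => ?_)
    refine CH_det34 hq (fun ω => x ω j) _ k ?_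
    intro ω ω' a1 a2 a3
    obtain ⟨e1, e2⟩ := Prod.ext_iff.1 a3
    refine hj ω ω' a1 a2 e2 j fun i hi => ?_
    have e4 := congrFun e1 i
    simp only [if_pos hi] at e4
    exact e4
  have h6 : CH q B (fun ω => ((fun i => ⌊(2 : ℝ) ^ k * x ω i⌋), W ω)) ≤
      ((n : ℝ) - 1) * (((J : ℝ) - k) * Real.log 2) := by
    refine (CH_pre34 hq0 B _).trans ?_
    have h7 : ∀ j, CH q (fun ω => B ω j) (fun ω => ((fun i => if i < j then B ω i else 0 :
        Fin n → ℤ), ((fun i => ⌊(2 : ℝ) ^ k * x ω i⌋), W ω))) ≤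
        if j = v then 0 else ((J : ℝ) - k) * Real.log 2 := by
      intro j
      by_cases hjv : j = v
      · rw [if_pos hjv, CH_eq_zero hq0]
        intro ω ω' _ _ _
        rw [hB]
        simp only [if_pos hjv]
      · rw [if_neg hjv]
        have h8 := Pool.KA.TRC.CH_floor (m := 1) hq (fun ω _ => x ω j)
          (fun ω => ((fun i => if i < j then B ω i else 0 : Fin n → ℤ),
            ((fun i => ⌊(2 : ℝ) ^ k * x ω i⌋), W ω))) k (J - k)
        rw [Nat.add_sub_cancel' hk] at h8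
        refine le_trans (le_of_eq ?_) (h8.trans (le_of_eq ?_))
        · refine CH_congr hq0 ?_ ?_ ?_ ?_
          · intro ω ω' _ _ e
            have e1 := (Prod.ext_iff.1 e).1
            rw [hB] at e1
            simp only [if_neg hjv] at e1
            funext _
            exact e1
          · intro ω ω' _ _ e
            have e1 := congrFun (Prod.ext_iff.1 e).1 0
            rw [hB]
            simp only [if_neg hjv]
            exact e1
          · intro ω ω' _ _ e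
            refine Prod.ext ?_ e
            funext _
            exact congrFun (Prod.ext_iff.1 (Prod.ext_iff.1 e).2).1 j
          · intro ω ω' _ _ e
            exact (Prod.ext_iff.1 e).2
        · rw [Nat.cast_sub hk]
          push_cast
          ring
    refine (Finset.sum_le_sum fun j _ => h7 j).trans (le_of_eq ?_)
    rw [Finset.sum_ite, Finset.sum_const_zero, zero_add, Finset.sum_const, nsmul_eq_mul]
    congr 1
    have h9 : (univ.filter fun j : Fin n => ¬ j = v) = univ.erase v := by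
      ext j
      simp
    rw [h9, Finset.card_erase_of_mem (Finset.mem_univ v), Finset.card_univ, Fintype.card_fin,
      Nat.cast_sub (by have := v.2; omega)]
    push_cast
    ring
  linarith only [h1, h2, h3, h4, h5, h6]

theorem abs_of_floor34 {k : ℕ} {a b : ℝ} (h : ⌊(2 : ℝ) ^ k * a⌋ = ⌊(2 : ℝ) ^ k * b⌋) :
    |a - b| ≤ 1 / 2 ^ k := by
  have h1 := (Int.abs_sub_lt_one_of_floor_eq_floor h).le
  rw [← mul_sub, abs_mul, abs_of_pos (by positivity : (0 : ℝ) < 2 ^ k)] at h1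
  rw [le_div_iff₀ (by positivity), mul_comm]
  exact h1

/-- The polynomial of a label at two points with the same time and near coordinates. -/
theorem eval_near34 {m J : ℕ} {F : Fam m J} (G : MvPolynomial (Option (Fin m)) ℝ)
    (I : Finset (Fin m))
    (hdep : ∀ b b' : Option (Fin m) → ℝ, b none = b' none →
      (∀ i ∈ I, b (some i) = b' (some i)) → eval b G = eval b' G)
    {ω ω' : F.Ω} (ht : F.t ω = F.t ω') {r M : ℝ} (hr : 0 ≤ r)
    (hx : ∀ i ∈ I, |F.x ω' i - F.x ω i| ≤ r)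
    (hlip : ∀ b : Option (Fin m) → ℝ, (∀ o, |b o - bt F ω o| ≤ r) → ∀ o,
      |eval b (pderiv o G)| ≤ M) :
    |eval (bt F ω') G - eval (bt F ω) G| ≤ M * (m * r) := by
  classical
  obtain ⟨y, hy⟩ : ∃ y : Option (Fin m) → ℝ, y = fun o => match o with
      | none => F.t ω
      | some i => if i ∈ I then F.x ω' i else F.x ω i := ⟨_, rfl⟩
  have h1 : eval y G = eval (bt F ω') G := by
    refine hdep _ _ ?_ fun i hi => ?_
    · rw [hy]
      exact ht
    · rw [hy]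
      exact if_pos hi
  have hyn : y none - bt F ω none = 0 := by
    rw [hy]
    exact sub_self _
  have hys : ∀ i, |y (some i) - bt F ω (some i)| ≤ r := by
    intro i
    rw [hy]
    show |(if i ∈ I then F.x ω' i else F.x ω i) - F.x ω i| ≤ r
    by_cases hi : i ∈ I
    · rw [if_pos hi]
      exact hx i hi
    · rw [if_neg hi, sub_self, abs_zero]
      exact hr
  have hyd : ∀ o, |y o - bt F ω o| ≤ r := by
    intro o
    cases o with
    | none =>
      rw [hyn, abs_zero]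
      exact hr
    | some i => exact hys i
  have hM : 0 ≤ M := (abs_nonneg _).trans (hlip (bt F ω) (fun o => by
    rw [sub_self, abs_zero]
    exact hr) none)
  have h2 := mvσ G (bt F ω) y M fun z hz o => hlip z (fun o' => (hz o').trans (hyd o')) o
  rw [h1] at h2
  refine h2.trans (mul_le_mul_of_nonneg_left ?_ hM)
  rw [Fintype.sum_option, hyn, abs_zero, zero_add]
  refine (Finset.sum_le_sum fun i _ => hys i).trans (le_of_eq ?_)
  rw [Finset.sum_const, Finset.card_univ, Fintype.card_fin, nsmul_eq_mul]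

/-- A label at two samples with the same time and near coordinates. -/
theorem lab_near34 {m J : ℕ} {F : Fam m J} (G : MvPolynomial (Option (Fin m)) ℝ)
    (I : Finset (Fin m))
    (hdep : ∀ b b' : Option (Fin m) → ℝ, b none = b' none →
      (∀ i ∈ I, b (some i) = b' (some i)) → eval b G = eval b' G)
    {ω ω' : F.Ω} (ht : F.t ω = F.t ω') {r M ε a a' : ℝ} (hr : 0 ≤ r)
    (hx : ∀ i ∈ I, |F.x ω' i - F.x ω i| ≤ r)
    (hlip : ∀ b : Option (Fin m) → ℝ, (∀ o, |b o - bt F ω o| ≤ r) → ∀ o,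
      |eval b (pderiv o G)| ≤ M)
    (h1 : |a - eval (bt F ω) G| ≤ ε) (h2 : |a' - eval (bt F ω') G| ≤ ε) :
    |a - a'| ≤ 2 * ε + M * (m * r) := by
  have h3 := eval_near34 G I hdep ht hr hx hlip
  rw [abs_le] at h1 h2 h3 ⊢
  constructor <;> linarith only [h1.1, h1.2, h2.1, h2.2, h3.1, h3.2]

theorem log_aux34 {c L E : ℝ} (hc : 0 ≤ c) (hL0 : 0 ≤ L) (hL : L ≤ c * 2 ^ E) (hE : 0 ≤ E) :
    Real.log (2 * (L + 1) + 1) ≤ Real.log (2 * c + 3) + E * Real.log 2 := by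
  have h0 : (1 : ℝ) ≤ (2 : ℝ) ^ E := Real.one_le_rpow (by norm_num) hE
  have h2 : 2 * (L + 1) + 1 ≤ (2 * c + 3) * 2 ^ E := by nlinarith only [h0, hL]
  refine (Real.log_le_log (by positivity) h2).trans (le_of_eq ?_)
  rw [Real.log_mul (by positivity) (by positivity), Real.log_rpow (by norm_num)]

theorem pow_aux34 {a b : ℕ} {x : ℝ} (h : (a : ℝ) ≤ b + x) : (2 : ℝ) ^ a * (1 / 2 ^ b) ≤ 2 ^ x := by
  have h2 : (0 : ℝ) < 2 := by norm_num
  rw [mul_one_div, div_le_iff₀ (by positivity), ← Real.rpow_natCast, ← Real.rpow_natCast,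
    ← Real.rpow_add h2]
  exact Real.rpow_le_rpow_of_exponent_le (by norm_num) (by linarith)

/-- **The last own number**, in one family. -/
theorem own_fam34 (n : ℕ) : ∃ C : ℝ, 0 ≤ C ∧ ∀ (J : ℕ) (F : Fam (n + 1) J) (A : F.Ω → Prop),
    0 < Pe F.p A → ∀ (s : Fin (n + 1) → ℝ) (e sV ρ' : ℝ) (K₀ w : ℕ), 0 ≤ e →
    0 ≤ sV → (∀ j : Fin n, s j.castSucc ≤ sV) → sV ≤ 1 → GraX K₀ e s J F →
    (∀ (V : Type) (z : PtT F → V) (z' : LnT F → V),
      (∀ ω, A ω → z (ptr F J ω) = z' (slam F w ω)) →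
      ((∑ j : Fin n, (1 - s j.castSucc)) - ρ') * Real.log 2 * J ≤
        CH (Pool.Agent.H49.Ent.cond F.p A True) (fun ω (j : Fin n) => F.X J ω (Fin.castSucc j))
          (fun ω => (z' (slam F w ω), F.W ω))) →
    ∀ (v : Fin n) (I : Finset (Fin (n + 1))), (∀ i ∈ I, ∃ j : Fin n, j ≠ v ∧ i = j.castSucc) →
    ∀ (K : ℕ) (γ q : ℝ), 0 ≤ γ → q + γ ≤ 1 →
    Lb F I v.castSucc K ⌊γ * J⌋₊ J w J ⌊q * J⌋₊ A →
    q * J * Real.log 2 ≤ (sV + ρ' + (n + 1) * e) * J * Real.log 2 + C := by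
  have hl2 : 0 < Real.log 2 := Real.log_pos one_lt_two
  obtain ⟨c, hc⟩ : ∃ c : ℝ, c = 4 + 2 * ((n : ℝ) + 1) := ⟨_, rfl⟩
  have hn0 : (0 : ℝ) ≤ n := Nat.cast_nonneg n
  have hc0 : 0 ≤ c := by rw [hc]; linarith
  have hlc : 0 ≤ Real.log (2 * c + 3) := Real.log_nonneg (by linarith)
  refine ⟨(n + 1) * Real.log (2 * c + 3) + n * Real.log 2, by positivity, ?_⟩
  intro J F A hA s e sV ρ' K₀ w he hsV0 hsV hsV1 hG hD v I hI K γ q hγ hqγ hL
  obtain ⟨Gr, hGr1, hGr2⟩ := hG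
  obtain ⟨V, z, z', G, hLb⟩ := hL
  have hJ0 : (0 : ℝ) ≤ J := Nat.cast_nonneg J
  have hq := isLaw_cond F.isLaw hA
  have hqp : ∀ ω, 0 < Pool.Agent.H49.Ent.cond F.p A True ω → 0 < F.p ω ∧ A ω := fun ω hω => by
    obtain ⟨h1, h2⟩ := (cond_pos_iff F.isLaw.nonneg A True ω).1 hω
    exact ⟨h1, of_eq_true h2⟩
  have hD1 := hD V z z' hLb.cls
  -- the scale
  obtain ⟨k, hk⟩ : ∃ k : ℕ, k = ⌊min (sV + e) 1 * (J : ℝ)⌋₊ := ⟨_, rfl⟩
  have hkJ : k ≤ J := by
    rw [hk]
    refine Nat.floor_le_of_le ?_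
    have := mul_le_mul_of_nonneg_right (min_le_right (sV + e) 1) hJ0
    linarith
  have hk1 : min (sV + e) 1 * (J : ℝ) < k + 1 := by
    rw [hk]
    exact Nat.lt_floor_add_one _
  have hk2 : (k : ℝ) ≤ (sV + e) * J := by
    rw [hk]
    refine (Nat.floor_le ?_).trans (mul_le_mul_of_nonneg_right (min_le_left _ _) hJ0)
    exact mul_nonneg (le_min (by linarith) zero_le_one) hJ0
  obtain ⟨W, hW⟩ : ∃ W : F.Ω → V × (ℕ × F.ζ),
      W = fun ω => (z' (slam F w ω), F.W ω) := ⟨_, rfl⟩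
  rw [← hW] at hD1
  have hWt : ∀ ω ω', W ω = W ω' → F.t ω = F.t ω' ∧ F.Z ω = F.Z ω' ∧
      z' (slam F w ω) = z' (slam F w ω') := by
    intro ω ω' h
    rw [hW] at h
    obtain ⟨h1, h2⟩ := Prod.ext_iff.1 h
    obtain ⟨h3, h4⟩ := Prod.ext_iff.1 h2
    refine ⟨?_, h4, h1⟩
    have h5 : F.T ω = F.T ω' := h3
    unfold Fam.t
    rw [h5]
  have key := own_pure34 hq (fun ω (j : Fin n) => F.x ω j.castSucc) W hkJ v
    (δ := 2 * (1 / 2 ^ ⌊q * (J : ℝ)⌋₊) + 2 ^ ⌊γ * (J : ℝ)⌋₊ * (((n + 1 : ℕ) : ℝ) * (1 / 2 ^ J)))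
    (δj := fun j => 2 * (1 / 2 ^ ⌊(s j.castSucc - e) * (J : ℝ)⌋₊) +
      2 ^ ⌊e * (J : ℝ)⌋₊ * (((n + 1 : ℕ) : ℝ) * (1 / 2 ^ k))) ?_ ?_
  rotate_left
  · intro ω ω' a1 a2 a3 j hfl
    obtain ⟨ht, hZ, -⟩ := hWt ω ω' a3
    have b1 := hGr2 ω (hqp ω a1).1 j.castSucc j.castSucc le_rfl
    have b2 := hGr2 ω' (hqp ω' a2).1 j.castSucc j.castSucc le_rfl
    rw [← hZ] at b2
    refine lab_near34 (Gr (F.Z ω) j.castSucc j.castSucc) (Finset.Iio j.castSucc)
      (hGr1 (F.Z ω) j.castSucc j.castSucc).2 ht (by positivity) ?_ ?_ b1.1 b2.1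
    · intro i hi
      have hi' := Finset.mem_Iio.1 hi
      have hlt : (i : ℕ) < j := hi'
      have e1 : i = (⟨i, hlt.trans j.2⟩ : Fin n).castSucc := Fin.ext rfl
      rw [e1]
      exact abs_of_floor34 (hfl ⟨i, hlt.trans j.2⟩ hlt).symm
    · intro b hb o
      refine b1.2 b (fun o' => (hb o').trans (inv_mono ?_)) o
      rw [hk]
      refine Nat.floor_le_floor (mul_le_mul_of_nonneg_right (min_le_min_right _ ?_) hJ0)
      have : rad s 0 j.castSucc ≤ sV := by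
        unfold rad
        split_ifs with h0
        · exact hsV0
        · have e1 : (⟨((j.castSucc : Fin (n + 1)) : ℕ) - 1, by omega⟩ : Fin (n + 1)) =
              (⟨(j : ℕ) - 1, by omega⟩ : Fin n).castSucc := Fin.ext rfl
          rw [e1]
          exact hsV _
      linarith
  · intro ω ω' a1 a2 a3 hfl
    obtain ⟨ht, -, hz⟩ := hWt ω ω' a3
    have b1 := hLb.pos ω (hqp ω a1).2
    have b2 := hLb.pos ω' (hqp ω' a2).2
    rw [← hz] at b2
    refine lab_near34 (G (z' (slam F w ω))) I (hLb.dep _) ht (by positivity) ?_ ?_ b1 b2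
    · intro i hi
      obtain ⟨j, hj1, rfl⟩ := hI i hi
      exact abs_of_floor34 (hfl j hj1).symm
    · exact hLb.lip ω (hqp ω a1).2
  -- the sums
  obtain ⟨lc, hlc'⟩ : ∃ lc, lc = Real.log (2 * c + 3) := ⟨_, rfl⟩
  have hqJ : 0 ≤ (1 - q) * (J : ℝ) := mul_nonneg (by linarith) hJ0
  have h1 : Real.log (2 * (2 ^ J * (2 * (1 / 2 ^ ⌊q * (J : ℝ)⌋₊) + 2 ^ ⌊γ * (J : ℝ)⌋₊ *
      (((n + 1 : ℕ) : ℝ) * (1 / 2 ^ J))) + 1) + 1) ≤ lc + (1 - q) * J * Real.log 2 := by
    rw [hlc']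
    refine log_aux34 hc0 (by positivity) ?_ hqJ
    have c1 := pow_aux34 (a := J) (b := ⌊q * (J : ℝ)⌋₊) (x := (1 - q) * J + 1) (by
      have := Nat.lt_floor_add_one (q * (J : ℝ))
      linarith)
    have c2 : (2 : ℝ) ^ ⌊γ * (J : ℝ)⌋₊ ≤ 2 ^ ((1 - q) * (J : ℝ)) := by
      rw [← Real.rpow_natCast]
      refine Real.rpow_le_rpow_of_exponent_le (by norm_num) ?_
      have c3 := Nat.floor_le (mul_nonneg hγ hJ0)
      have c4 := mul_le_mul_of_nonneg_right hqγ hJ0
      linarith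
    rw [Real.rpow_add (by norm_num), Real.rpow_one] at c1
    have c5 : (2 : ℝ) ^ J * (2 * (1 / 2 ^ ⌊q * (J : ℝ)⌋₊) + 2 ^ ⌊γ * (J : ℝ)⌋₊ *
        (((n + 1 : ℕ) : ℝ) * (1 / 2 ^ J))) = 2 * (2 ^ J * (1 / 2 ^ ⌊q * (J : ℝ)⌋₊)) +
        (((n + 1 : ℕ) : ℝ)) * 2 ^ ⌊γ * (J : ℝ)⌋₊ := by
      have : (2 : ℝ) ^ J ≠ 0 := by positivity
      field_simp
    have c6 : (0 : ℝ) < 2 ^ ((1 - q) * (J : ℝ)) := by positivity
    rw [c5, hc]
    push_cast
    nlinarith only [c1, c2, c6, hn0]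
  have h2 : ∀ j : Fin n, Real.log (2 * (2 ^ k * (2 * (1 / 2 ^ ⌊(s j.castSucc - e) * (J : ℝ)⌋₊) +
      2 ^ ⌊e * (J : ℝ)⌋₊ * (((n + 1 : ℕ) : ℝ) * (1 / 2 ^ k))) + 1) + 1) ≤
      lc + (k - (s j.castSucc - e) * J + 1) * Real.log 2 := by
    intro j
    rw [hlc']
    have d1 : s j.castSucc * (J : ℝ) < k + 1 := by
      refine lt_of_le_of_lt (mul_le_mul_of_nonneg_right (le_min ?_ ?_) hJ0) hk1
      · linarith [hsV j]
      · exact (hsV j).trans hsV1
    have d2 : 0 ≤ (k : ℝ) - (s j.castSucc - e) * J + 1 := by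
      have : 0 ≤ e * (J : ℝ) := mul_nonneg he hJ0
      linarith
    refine log_aux34 hc0 (by positivity) ?_ d2
    have c1 := pow_aux34 (a := k) (b := ⌊(s j.castSucc - e) * (J : ℝ)⌋₊)
      (x := k - (s j.castSucc - e) * J + 1) (by
      have := Nat.lt_floor_add_one ((s j.castSucc - e) * (J : ℝ))
      linarith)
    have c2 : (2 : ℝ) ^ ⌊e * (J : ℝ)⌋₊ ≤ 2 ^ (k - (s j.castSucc - e) * (J : ℝ) + 1) := by
      rw [← Real.rpow_natCast]
      refine Real.rpow_le_rpow_of_exponent_le (by norm_num) ?_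
      have c3 := Nat.floor_le (mul_nonneg he hJ0)
      linarith
    have c5 : (2 : ℝ) ^ k * (2 * (1 / 2 ^ ⌊(s j.castSucc - e) * (J : ℝ)⌋₊) +
        2 ^ ⌊e * (J : ℝ)⌋₊ * (((n + 1 : ℕ) : ℝ) * (1 / 2 ^ k))) =
        2 * (2 ^ k * (1 / 2 ^ ⌊(s j.castSucc - e) * (J : ℝ)⌋₊)) +
        (((n + 1 : ℕ) : ℝ)) * 2 ^ ⌊e * (J : ℝ)⌋₊ := by
      have : (2 : ℝ) ^ k ≠ 0 := by positivity
      field_simp
    have c6 : (0 : ℝ) < 2 ^ (k - (s j.castSucc - e) * (J : ℝ) + 1) := by positivity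
    rw [c5, hc]
    push_cast
    nlinarith only [c1, c2, c6, hn0]
  have h3 := Finset.sum_le_sum fun (j : Fin n) (_ : j ∈ univ) => h2 j
  have h4 : ∑ j : Fin n, (lc + (k - (s j.castSucc - e) * (J : ℝ) + 1) * Real.log 2) =
      n * lc + (n * k - (∑ j : Fin n, s j.castSucc) * J + n * e * J + n) * Real.log 2 := by
    have e1 : ∀ j : Fin n, lc + (k - (s j.castSucc - e) * (J : ℝ) + 1) * Real.log 2 =
        (lc + (k + e * J + 1) * Real.log 2) - s j.castSucc * (J * Real.log 2) := fun j => by ring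
    rw [Finset.sum_congr rfl fun j _ => e1 j, Finset.sum_sub_distrib, Finset.sum_const,
      Finset.card_univ, Fintype.card_fin, nsmul_eq_mul, ← Finset.sum_mul]
    ring
  have h5 : ∑ j : Fin n, (1 - s j.castSucc) = n - ∑ j : Fin n, s j.castSucc := by
    rw [Finset.sum_sub_distrib, Finset.sum_const, Finset.card_univ, Fintype.card_fin, nsmul_eq_mul,
      mul_one]
  rw [h5] at hD1
  have h6 : (k : ℝ) * Real.log 2 ≤ (sV + e) * J * Real.log 2 :=
    mul_le_mul_of_nonneg_right hk2 hl2.le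
  have h7 := hD1.trans key
  rw [← hlc']
  linarith only [h1, h3, h4, h6, h7]

/-- **The last own number**, in a class: a closed label of one base coordinate over the other base
coordinates at a small window has a precision at most the largest number of the base, up to the
error of the exactness of the base and the slack. -/
theorem own_last34 {n : ℕ} {s : Fin (n + 1) → ℝ} {e sV ρ' w₀ : ℝ} {K₀ : ℕ} {S : PCl (n + 1)}
    (he : 0 ≤ e) (hsV0 : 0 ≤ sV) (hsV : ∀ j : Fin n, s j.castSucc ≤ sV) (hsV1 : sV ≤ 1)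
    (hmem : ∀ (τ : ℝ) (J : ℕ) (F : Fam (n + 1) J) (A : F.Ω → Prop), S.St τ J F A →
      0 < Pe F.p A ∧ GraX K₀ e s J F)
    (hD : Bas S (fun J F A => ∀ W : ℕ, W ≤ ⌊w₀ * J⌋₊ → ∀ (V : Type) (z : PtT F → V)
      (z' : LnT F → V), (∀ ω, A ω → z (ptr F J ω) = z' (slam F W ω)) →
      ((∑ j : Fin n, (1 - s j.castSucc)) - ρ') * Real.log 2 * J ≤
        CH (Pool.Agent.H49.Ent.cond F.p A True) (fun ω (j : Fin n) => F.X J ω (Fin.castSucc j))
          (fun ω => (z' (slam F W ω), F.W ω))))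
    {v : Fin n} {I : Finset (Fin (n + 1))} (hI : ∀ i ∈ I, ∃ j : Fin n, j ≠ v ∧ i = j.castSucc)
    {w γ q h : ℝ} (hw : w ≤ w₀) (hγ : 0 ≤ γ) (hqγ : q + γ ≤ 1) (hh : 0 < h)
    (hq : sV + ρ' + (n + 1) * e + h ≤ q) :
    Bas S (fun J F A => ∀ K : ℕ,
      ¬ Lb F I v.castSucc K ⌊γ * J⌋₊ J ⌊w * J⌋₊ J ⌊q * J⌋₊ A) := by
  have hl2 : 0 < Real.log 2 := Real.log_pos one_lt_two
  obtain ⟨C, hC0, hC⟩ := own_fam34 n
  obtain ⟨τ, hτ, J₁, hb⟩ := hD
  obtain ⟨J₂, hJ₂⟩ := exists_nat_gt (C / (h * Real.log 2))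
  refine ⟨τ, hτ, max J₁ J₂, fun J hJ F A hA K hL => ?_⟩
  have hJ0 : (0 : ℝ) ≤ J := Nat.cast_nonneg J
  obtain ⟨hpA, hG⟩ := hmem τ J F A hA
  have h1 := hC J F A hpA s e sV ρ' K₀ ⌊w * J⌋₊ he hsV0 hsV hsV1 hG
    (hb J ((le_max_left _ _).trans hJ) F A hA ⌊w * J⌋₊
      (Nat.floor_le_floor (mul_le_mul_of_nonneg_right hw hJ0))) v I hI K γ q hγ hqγ hL
  have h2 : (J₂ : ℝ) ≤ J := by exact_mod_cast (le_max_right _ _).trans hJ
  have h3 : C < h * Real.log 2 * J := by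
    have h4 : C / (h * Real.log 2) < J := hJ₂.trans_le h2
    rw [div_lt_iff₀ (by positivity)] at h4
    linarith
  have h5 : (sV + ρ' + (n + 1) * e + h) * J * Real.log 2 ≤ q * J * Real.log 2 :=
    mul_le_mul_of_nonneg_right (mul_le_mul_of_nonneg_right hq hJ0) hl2.le
  have e1 : (sV + ρ' + (n + 1) * e + h) * J * Real.log 2 =
      (sV + ρ' + (n + 1) * e) * J * Real.log 2 + h * Real.log 2 * J := by ring
  linarith

end Pool.GEN.N34
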