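import Pool.Agent.H1.GEN.One
import Pool.Agent.H72.EXW.Full
import Pool.Agent.H83.GN.NumX
import Pool.Agent.H34.GEN.Own
import Pool.Agent.H34.GEN.DiaA

/-!
# The threshold of the last coordinate at a small window

`diaN`: if the slack of a class is small, the threshold of the labels of the last coordinate over
any list of other coordinates is at most `s (n - 1) + h`, at some small window.
-/

set_option autoImplicit false

namespace Pool.GEN.N34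

open Finset Real MvPolynomial
open Pool.Agent.H49.Ent Pool.Agent.H32.Dense Pool.STK Pool.KA Pool.KSAT Pool.K2S Pool.PB Pool.S6C
open Pool.GEN Pool.GRD Pool.ONE Pool.EXW Pool.GEN.N83
open Pool.LBT (ThrOf)
open Pool.LBN (Tch)
open Pool.FLF (Fam.sub)
open Pool.UNJ (ceI)

variable {m J : ℕ}

/-- **The base is full below the cells** of side slightly smaller than the largest number of the
base, given every function which is closed at the window. -/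
theorem dia_full34 {n : ℕ} (hn : 0 < n) (hF : FZX n) {al : ℝ} (hal : 0 < al) {g₀ : ℝ → ℝ}
    (hg₀ : ∀ ε : ℝ, 0 < ε → 0 < g₀ ε) {s : Fin (n + 1) → ℝ} {d : ℕ → ℝ} (hsd : NumX s d)
    {sV δ : ℝ} (hδ : 0 < δ) (hsV : ∀ j : Fin n, s j.castSucc ≤ sV) (hsV0 : 0 ≤ sV)
    (hsV1 : sV ≤ 1) :
    ∃ e : ℝ, 0 < e ∧ e ≤ δ ∧ ∀ (K₀ : ℕ) (N : ℚ → ℚ → ℝ) (S : PCl (n + 1)),
    ClX s d al g₀ e K₀ N S → ∃ S' : PCl (n + 1), S'.Ne ∧
      (∀ (τ : ℝ) (J : ℕ) (F : Fam (n + 1) J) (A : F.Ω → Prop), S'.St τ J F A → S.St τ J F A) ∧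
      ∃ w : ℝ, 0 < w ∧ w ≤ δ ∧ w < 1 ∧ ∀ u : ℝ, sV + 4 * δ ≤ u → ∀ ρ : ℝ, 0 < ρ →
        Bas S' (fun J F A => ∀ (V : Type) (z : PtT F → V) (z' : LnT F → V),
          (∀ ω, A ω → z (ptr F J ω) = z' (slam F ⌊w * J⌋₊ ω)) →
          (Iio (Fin.last n)).card * (((J - ⌊u * J⌋₊ : ℕ) : ℝ) * Real.log 2) - ρ * J ≤
            CH (Pool.Agent.H49.Ent.cond F.p A True)
              (fun ω => ceI (Iio (Fin.last n)) (fun _ => J) (F.x ω))
              (fun ω => (ceI (Iio (Fin.last n)) (fun _ => ⌊u * J⌋₊) (F.x ω),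
                z' (slam F ⌊w * J⌋₊ ω), F.W ω))) := by
  classical
  obtain ⟨e₁, he₁, hd1⟩ := d1x hF hδ hal hg₀ hsd
  have hn1 : (0 : ℝ) < (n : ℝ) + 1 := by positivity
  obtain ⟨e, he⟩ : ∃ e, e = min e₁ (δ / ((n : ℝ) + 1)) := ⟨_, rfl⟩
  have he0 : 0 < e := by
    rw [he]
    exact lt_min he₁ (by positivity)
  have hee1 : e ≤ e₁ := by rw [he]; exact min_le_left _ _
  have hen : ((n : ℝ) + 1) * e ≤ δ := by
    have e1 : e ≤ δ / ((n : ℝ) + 1) := by rw [he]; exact min_le_right _ _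
    rw [le_div_iff₀ hn1] at e1
    linarith
  have heδ : e ≤ δ := by
    have : (0 : ℝ) ≤ n := Nat.cast_nonneg n
    nlinarith
  refine ⟨e, he0, heδ, fun K₀ N S h => ?_⟩
  obtain ⟨S', L, hne, hsub, hL⟩ := lamw S h.ne
  have h' := h.sub hne hsub
  obtain ⟨w₀, hw₀, hD⟩ := hd1 K₀ N S' (h'.slack hee1)
  have hact0 : ActB N S' ((⟨0, hn⟩ : Fin n).castSucc) := h'.actb _ rfl
  have hposB : Bas S' (fun _ F A => 0 < Pe F.p A) :=
    ⟨1, one_pos, 0, fun J _ F A hA => h'.pos 1 J F A hA⟩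
  have hκ : ∀ w : ℝ, 0 ≤ w → w < 1 → L ∅ (Fin.castSucc (⟨0, hn⟩ : Fin n)) w w = w :=
    fun w h0 h1 => hL.act hne hal (h'.actm.q hg₀) hact0 hposB h0 h1
  obtain ⟨D, hDc, hcov⟩ := wv_cover hL (φ := Fin.castSucc) (κ := ⟨0, hn⟩) hκ
  obtain ⟨w, hwD, hw0, hw⟩ := (hDc.dense_compl ℝ).exists_between
    (show (0 : ℝ) < min w₀ (min δ (1 / 2)) from lt_min hw₀ (lt_min hδ (by norm_num)))
  have hww₀ : w ≤ w₀ := hw.le.trans (min_le_left _ _)
  have hwδ : w ≤ δ := hw.le.trans ((min_le_right _ _).trans (min_le_left _ _))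
  have hw1 : w < 1 := by
    have : w ≤ 1 / 2 := hw.le.trans ((min_le_right _ _).trans (min_le_right _ _))
    linarith
  obtain ⟨σ, ⟨-, -, hg, hc⟩, hσ0⟩ := hcov w hw0 hw1 hwD
  obtain ⟨ε, hε⟩ : ∃ ε : Fin n → Fin (n + 1), ε = Fin.castSucc ∘ σ := ⟨_, rfl⟩
  rw [← hε] at hg hc
  have hεinj : Function.Injective ε := by
    rw [hε]
    exact (Fin.castSucc_injective n).comp σ.injective
  have hεv : ∀ j, ε j = (σ j).castSucc := fun j => by rw [hε]; rfl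
  have hact : ∀ k : Fin n, (k : ℕ) = 0 → ActB N S' (ε k) := by
    intro k hk
    rw [hεv, hσ0 k hk]
    exact hact0
  have hexa : ∀ ρ : ℝ, 0 < ρ → _ := fun ρ hρ => vst_exa hF hne (C₀ := 6) (by norm_num)
    (clx_tmc h') hL hal hg₀ h'.actm hposB hεinj hact hw0 hw1 hg hc hρ
  have hatt : ∀ e' : ℝ, 0 < e' → _ := fun e' he' => vst_att hL hw0 hw1 hg hc he'
  -- the largest own number
  obtain ⟨u₀, hu₀⟩ : ∃ u₀, u₀ = vs L ε w n := ⟨_, rfl⟩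
  have hu₀1 : u₀ ≤ 1 := by rw [hu₀]; exact vs_le1 hL ε hw1.le n
  have hvs : ∀ j ≤ n, vs L ε w j ≤ u₀ := fun j hj => by
    rw [hu₀]
    exact hg.mono hL hw1.le hj
  have hu₀V : u₀ < sV + 4 * δ := by
    by_contra hcon
    push Not at hcon
    obtain ⟨v, hv⟩ : ∃ v : Fin n, v = ⟨n - 1, by omega⟩ := ⟨_, rfl⟩
    have hv1 : (v : ℕ) + 1 = n := by
      rw [hv]
      simp only
      omega
    obtain ⟨K, hK⟩ := hatt δ hδ
    have hK := hK v v le_rfl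
    rw [hv1, ← hu₀, hεv v] at hK
    have hno := own_last34 (s := s) (e := e) (sV := sV) (ρ' := δ) (w₀ := w₀) (K₀ := K₀) (S := S')
      he0.le hsV0 hsV hsV1 (fun τ J F A hA => ⟨h'.pos τ J F A hA, (h'.mem τ J F A hA).2.2.2.2.2.1⟩)
      hD (v := σ v) (I := (Iio v).image ε) (by
        intro i hi
        obtain ⟨j, hj, rfl⟩ := Finset.mem_image.1 hi
        refine ⟨σ j, fun he => ?_, hεv j⟩
        have := σ.injective he
        rw [this] at hj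
        exact absurd (Finset.mem_Iio.1 hj) (lt_irrefl _)) (w := w) (γ := δ) (q := u₀ - δ) (h := δ)
      hww₀ hδ.le (by linarith) hδ (by linarith)
    refine Clp.not_false hne (Clp.mono (J₂ := 0) (hK.and hno).clp ?_)
    intro J _ F A hAB
    obtain ⟨h1, h2⟩ := hAB
    refine h2 K (h1.mono (Finset.Subset.refl _) le_rfl le_rfl le_rfl le_rfl (fl_le hw1.le J)
      (fl_le (min_le_right _ _) J) le_rfl)
  refine ⟨S', hne, hsub, w, hw0, hwδ, hw1, fun u hu ρ hρ => ?_⟩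
  have hu0 : 0 ≤ u := by linarith
  have h1 := full_cls (S := S') (fun τ J F A _ hA => h'.pos τ J F A hA) (i := n) (ε := ε) (w := w)
    (u := u) (s := fun j : Fin n => vs L ε w (j + 1)) (r := fun j : Fin n => vs L ε w j) hu0
    (fun j => (hvs _ (by omega)).trans (by linarith)) (fun j => (hvs _ (by omega)).trans
      (by linarith)) hexa (fun e' he' => by
        obtain ⟨K, hK⟩ := hatt e' he'
        exact ⟨K, fun j => hK j j le_rfl⟩) ρ hρ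
  have himg : univ.image ε = Iio (Fin.last n) := by
    ext i
    rw [Finset.mem_image, Finset.mem_Iio]
    constructor
    · rintro ⟨j, -, rfl⟩
      rw [hεv]
      exact Fin.castSucc_lt_last _
    · intro hi
      refine ⟨σ.symm (i.castPred hi.ne), Finset.mem_univ _, ?_⟩
      rw [hεv, Equiv.apply_symm_apply, Fin.castSucc_castPred]
  rw [himg] at h1
  exact h1

theorem rad_last34 {n : ℕ} (hn : 0 < n) (s : Fin (n + 1) → ℝ) :
    rad s 0 (Fin.last n) = s (⟨n - 1, by omega⟩ : Fin n).castSucc := by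
  unfold rad
  rw [if_neg (by simp only [Fin.val_last]; omega)]
  congr 1

theorem rad_le34 {n : ℕ} {s : Fin (n + 1) → ℝ} {sV : ℝ} (hsV : ∀ j : Fin n, s j.castSucc ≤ sV)
    (hsV0 : 0 ≤ sV) (v : Fin n) : rad s 0 v.castSucc ≤ sV := by
  unfold rad
  split_ifs with h0
  · exact hsV0
  · have e1 : (⟨((v.castSucc : Fin (n + 1)) : ℕ) - 1, by omega⟩ : Fin (n + 1)) =
        (⟨(v : ℕ) - 1, by omega⟩ : Fin n).castSucc := Fin.ext rfl
    rw [e1]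
    exact hsV _

/-- **The label of the last coordinate from the side information**, with its velocities. -/
theorem gra_lb34 {n : ℕ} {s : Fin (n + 1) → ℝ} {d : ℕ → ℝ} {al : ℝ} {g₀ : ℝ → ℝ} {e : ℝ} {K₀ : ℕ}
    {N : ℚ → ℚ → ℝ} {S : PCl (n + 1)} (h : ClX s d al g₀ e K₀ N S) (v : Fin n)
    {sV δ : ℝ} (hsV : ∀ j : Fin n, s j.castSucc ≤ sV) (hv : s v.castSucc = sV) (hsV0 : 0 ≤ sV)
    {w : ℝ} (hw0 : 0 ≤ w) (hw1 : w < 1) (hδ : 0 < δ) :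
    ∃ τ₀ : ℝ, 0 < τ₀ ∧ ∃ J₀ : ℕ, ∀ J ≥ J₀, ∀ (F : Fam (n + 1) J) (A : F.Ω → Prop), S.St τ₀ J F A →
    ∃ B : F.Ω → Prop, Sub B A ∧ Pe F.p A / 2 ≤ Pe F.p B ∧
      ∃ (G : F.ζ → MvPolynomial (Option (Fin (n + 1))) ℝ) (P : ℕ),
        LbOK F (Iio (Fin.last n)) (Fin.last n) K₀ ⌊e * J⌋₊ J ⌊w * J⌋₊ ⌊(sV + e) * J⌋₊ P B
          (fun y => y.2.2) (fun s => s.2.1) G ∧ (sV - e - δ) * J - 1 ≤ P := by
  classical
  obtain ⟨τ₀, hτ₀, J₀, hvel⟩ := vel_lbp34 (S := S) (C₀ := 6) (by norm_num) (clx_tmc h) K₀ hw1 hw0 hδ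
  refine ⟨τ₀, hτ₀, J₀, fun J hJ F A hA => ?_⟩
  have hJ0 : (0 : ℝ) ≤ J := Nat.cast_nonneg J
  obtain ⟨-, -, -, -, hGd, ⟨Gr, hGr1, hGr2⟩, -⟩ := h.mem τ₀ J F A hA
  by_cases hle : ⌊δ * (J : ℝ)⌋₊ ≤ ⌊(sV - e) * (J : ℝ)⌋₊
  · obtain ⟨B, hBA, hPB, hB⟩ := hvel J hJ F A hA (Iio (Fin.last n)) (Fin.last n) ⌊e * J⌋₊
      ⌊(sV + e) * J⌋₊ ⌊(sV - e) * J⌋₊ (fun z => Gr z v.castSucc (Fin.last n)) hle
      (fun z => (hGr1 z _ _).1)
      (fun z b b' h1 h2 => (hGr1 z v.castSucc (Fin.last n)).2 b b' h1 fun i hi =>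
        h2 i (Finset.mem_Iio.2 ((Finset.mem_Iio.1 hi).trans (Fin.castSucc_lt_last v))))
      (fun ω hω _ => by
        have h1 := (hGr2 ω hω v.castSucc (Fin.last n) (Fin.castSucc_lt_last v).le).1
        rwa [hv] at h1)
      (fun ω hω _ b hb o => by
        refine (hGr2 ω hω v.castSucc (Fin.last n) (Fin.castSucc_lt_last v).le).2 b
          (fun o' => (hb o').trans (inv_mono ?_)) o
        refine Nat.floor_le_floor (mul_le_mul_of_nonneg_right ?_ hJ0)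
        exact (min_le_left _ _).trans (by linarith [rad_le34 hsV hsV0 v]))
    refine ⟨B, hBA, hPB, _, _, hB, ?_⟩
    have e1 := Nat.lt_floor_add_one ((sV - e) * (J : ℝ))
    have e2 : (⌊δ * (J : ℝ)⌋₊ : ℝ) ≤ δ * J := Nat.floor_le (by positivity)
    rw [Nat.cast_sub hle]
    linarith
  · push Not at hle
    refine ⟨A, fun _ hω => hω, by linarith [Pe_nonneg F.isLaw A], fun _ => C 1, 0,
      triv_lb34 (fun ω i => gd_x hGd ω i) _ _ _ _ _ _ _, ?_⟩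
    have e1 := Nat.lt_floor_add_one ((sV - e) * (J : ℝ))
    have e2 : (⌊δ * (J : ℝ)⌋₊ : ℝ) ≤ δ * J := Nat.floor_le (by positivity)
    have e3 : (⌊(sV - e) * (J : ℝ)⌋₊ : ℝ) ≤ ⌊δ * (J : ℝ)⌋₊ := by exact_mod_cast hle.le
    push_cast
    linarith

/-- **The threshold of the last coordinate at a small window** (the statement `DiaN`). -/
theorem diaN (n : ℕ) : DiaN n := by
  classical
  intro hn hZ al g₀ s d hal hg₀ hsd h hh
  obtain ⟨n, rfl⟩ : ∃ n', n = n' + 1 := ⟨n - 1, by omega⟩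
  have hlst : lst hn = Fin.last n := Fin.ext rfl
  rw [hlst]
  by_cases hbig : 1 ≤ s (Fin.last n) + h
  · exact ⟨1, one_pos, fun K₀ N S _ P hP => ⟨1, one_pos, le_rfl,
      (hP.up () 1 1 zero_le_one le_rfl le_rfl).trans hbig⟩⟩
  push Not at hbig
  have hn0 : 0 < n := by omega
  obtain ⟨l, hl⟩ := exists_nat_one_div_lt (show 0 < h / 4 by positivity)
  obtain ⟨v, hv⟩ : ∃ v : Fin n, v = ⟨n - 1, by omega⟩ := ⟨_, rfl⟩
  obtain ⟨sV, hsV⟩ : ∃ sV, sV = s v.castSucc := ⟨_, rfl⟩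
  obtain ⟨sN, hsN⟩ : ∃ sN, sN = s (Fin.last n) := ⟨_, rfl⟩
  have hsVle : ∀ j : Fin n, s j.castSucc ≤ sV := by
    intro j
    rw [hsV]
    refine hsd.ms ?_
    rw [Fin.castSucc_le_castSucc_iff, Fin.le_def, hv]
    simp only
    omega
  have hsV0 : 0 ≤ sV := by rw [hsV]; exact hsd.s0 _
  have hsVN : sV ≤ sN := by rw [hsV, hsN]; exact hsd.ms (Fin.castSucc_lt_last v).le
  rw [← hsN] at hbig ⊢
  have hd0 := hsd.d0 l
  obtain ⟨δ, hδ⟩ : ∃ δ, δ = min (d l) (min h 1) / 64 := ⟨_, rfl⟩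
  have hδ0 : 0 < δ := by
    rw [hδ]
    have : 0 < min (d l) (min h 1) := lt_min hd0 (lt_min hh one_pos)
    linarith
  have hδd : 64 * δ ≤ d l := by
    rw [hδ]
    have := min_le_left (d l) (min h 1)
    linarith
  have hδh : 64 * δ ≤ h := by
    rw [hδ]
    have := (min_le_right (d l) (min h 1)).trans (min_le_left _ _)
    linarith
  obtain ⟨e₁, he₁, he₁δ, hfull⟩ := dia_full34 hn0 (hZ n hn0 (Nat.lt_succ_self n)) hal hg₀ hsd hδ0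
    hsVle hsV0 (by linarith)
  have hl0 : (0 : ℝ) < 1 / ((l : ℝ) + 1) := by positivity
  obtain ⟨e, he⟩ : ∃ e, e = min e₁ (1 / ((l : ℝ) + 1)) := ⟨_, rfl⟩
  have he0 : 0 < e := by rw [he]; exact lt_min he₁ hl0
  have hee₁ : e ≤ e₁ := by rw [he]; exact min_le_left _ _
  have hel : e ≤ 1 / ((l : ℝ) + 1) := by rw [he]; exact min_le_right _ _
  have heδ : e ≤ δ := hee₁.trans he₁δ
  refine ⟨e, he0, fun K₀ N S hS P hP => ?_⟩
  by_contra hcon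
  push Not at hcon
  obtain ⟨S', hne, hsub, w, hw0, hwδ, hw1, full⟩ := hfull K₀ N S (hS.slack hee₁)
  have hS' := hS.sub hne hsub
  have hP' := hP.sub hsub
  have hPw := hcon w hw0 hw1.le
  obtain ⟨K₁, hatt⟩ := hP'.att () w w (P w w - (sN + h)) hw0 le_rfl hw1.le (by linarith)
    (by linarith)
  have e0 : P w w - (P w w - (sN + h)) = sN + h := by ring
  simp only [e0] at hatt
  obtain ⟨c', hc'1, hch⟩ := tch_lbp34 (n + 1) K₁
  obtain ⟨K, hK⟩ : ∃ K, K = max c' K₀ := ⟨_, rfl⟩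
  obtain ⟨u, hu⟩ : ∃ u, u = sV + 5 * δ := ⟨_, rfl⟩
  obtain ⟨τ₁, hτ₁, J₁, hgra⟩ := gra_lb34 hS' v hsVle hsV.symm hsV0 hw0.le hw1 hδ0
  obtain ⟨τ₂, hτ₂, J₂, hatt⟩ := hatt
  obtain ⟨τ₃, hτ₃, J₃, hgr⟩ := gr_cls (S := S') (C₀ := 6) (by norm_num) hS'.pos
    (fun τ J F A hA hτ hSA => tm_sub34 (by norm_num) (clx_tmc hS') τ J F A hA hτ hSA)
    (Iio (Fin.last n)) (Fin.last n) (w := w) (u := u) (by linarith) (by linarith)
    (by linarith) (full u (by linarith)) K hδ0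
  obtain ⟨τ₄, hτ₄, J₄, hbtr⟩ := hS'.btr l K hel
  obtain ⟨τ, hτ⟩ : ∃ τ, τ = min (min τ₁ τ₂) (min τ₃ τ₄) / 4 := ⟨_, rfl⟩
  have hτ0 : 0 < τ := by
    rw [hτ]
    have : 0 < min (min τ₁ τ₂) (min τ₃ τ₄) := lt_min (lt_min hτ₁ hτ₂) (lt_min hτ₃ hτ₄)
    linarith
  have t1 : 4 * τ ≤ τ₁ := by
    rw [hτ]
    have := (min_le_left (min τ₁ τ₂) (min τ₃ τ₄)).trans (min_le_left _ _)
    linarith
  have t2 : 4 * τ ≤ τ₂ := by
    rw [hτ]
    have := (min_le_left (min τ₁ τ₂) (min τ₃ τ₄)).trans (min_le_right _ _)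
    linarith
  have t3 : 4 * τ ≤ τ₃ := by
    rw [hτ]
    have := (min_le_right (min τ₁ τ₂) (min τ₃ τ₄)).trans (min_le_left _ _)
    linarith
  have t4 : 4 * τ ≤ τ₄ := by
    rw [hτ]
    have := (min_le_right (min τ₁ τ₂) (min τ₃ τ₄)).trans (min_le_right _ _)
    linarith
  obtain ⟨J₅, hJ₅⟩ := exists_nat_ge ((c' + 4 : ℝ) / τ + (c' + 4) / δ)
  obtain ⟨J, hJ, F, A, hA⟩ := hne τ hτ0 (max (max (max J₁ J₂) (max J₃ J₄)) J₅)
  have j1 : J₁ ≤ J := ((le_max_left _ _).trans ((le_max_left _ _).trans (le_max_left _ _))).trans hJ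
  have j2 : J₂ ≤ J :=
    ((le_max_right _ _).trans ((le_max_left _ _).trans (le_max_left _ _))).trans hJ
  have j3 : J₃ ≤ J :=
    ((le_max_left _ _).trans ((le_max_right _ _).trans (le_max_left _ _))).trans hJ
  have j4 : J₄ ≤ J :=
    ((le_max_right _ _).trans ((le_max_right _ _).trans (le_max_left _ _))).trans hJ
  have j5 : (J₅ : ℝ) ≤ J := by exact_mod_cast (le_max_right _ _).trans hJ
  have hJ0 : (0 : ℝ) ≤ J := Nat.cast_nonneg J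
  have q1 : 0 < (c' + 4 : ℝ) / τ := by positivity
  have q2 : 0 < (c' + 4 : ℝ) / δ := by positivity
  have f1 : (c' + 4 : ℝ) ≤ τ * J := by
    have e1 : (c' + 4 : ℝ) / τ ≤ J := by linarith
    rw [div_le_iff₀ hτ0] at e1
    linarith
  have f2 : (c' + 4 : ℝ) ≤ δ * J := by
    have e1 : (c' + 4 : ℝ) / δ ≤ J := by linarith
    rw [div_le_iff₀ hδ0] at e1
    linarith
  have hexp : ∀ x : ℝ, 0 ≤ x → x ≤ c' + 4 → ∀ p q : ℝ, 0 ≤ q → p ≤ x * q →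
      Real.exp (-(τ * J)) * p ≤ q := by
    intro x hx0 hx p q hq hpq
    rw [Real.exp_neg, inv_mul_le_iff₀ (Real.exp_pos _)]
    refine hpq.trans (mul_le_mul_of_nonneg_right ?_ hq)
    have := Real.add_one_le_exp (τ * (J : ℝ))
    linarith
  -- the chain
  obtain ⟨P₀, hP₀⟩ : ∃ P₀, P₀ = ⌊(sN + h) * (J : ℝ)⌋₊ := ⟨_, rfl⟩
  have hP₀1 : (sN + h) * (J : ℝ) < P₀ + 1 := by rw [hP₀]; exact Nat.lt_floor_add_one _
  have hwf : (⌊w * (J : ℝ)⌋₊ : ℝ) ≤ w * J := Nat.floor_le (by positivity)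
  have hwJ : w * (J : ℝ) ≤ δ * J := mul_le_mul_of_nonneg_right hwδ hJ0
  have hhJ : 64 * δ * (J : ℝ) ≤ h * J := mul_le_mul_of_nonneg_right hδh hJ0
  have hdJ : 64 * δ * (J : ℝ) ≤ d l * J := mul_le_mul_of_nonneg_right hδd hJ0
  have hsNJ : sV * (J : ℝ) ≤ sN * J := mul_le_mul_of_nonneg_right hsVN hJ0
  have hsVJ : 0 ≤ sV * (J : ℝ) := mul_nonneg hsV0 hJ0
  have hc'0 : (0 : ℝ) ≤ c' := Nat.cast_nonneg c'
  have hP₀2 : ⌊w * (J : ℝ)⌋₊ + c' ≤ P₀ := by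
    have : ((⌊w * (J : ℝ)⌋₊ + c' : ℕ) : ℝ) ≤ P₀ := by
      push_cast
      linarith
    exact_mod_cast this
  obtain ⟨l', hl'1, hl'2, htch⟩ := hatt J j2 F A (S'.mono (by linarith) hA)
  obtain ⟨B₁, hB₁A, hPB₁, V, z, z', G, hlbp⟩ := hch J F l' (Fin.last n) ⌊w * J⌋₊ ⌊w * J⌋₊ P₀ A
    hl'1 hl'2 (fl_le hw1.le J) hP₀2 (by rw [hP₀]; exact htch)
  have hSB₁ : S'.St (τ + τ) J F B₁ := S'.res hτ0.le hA hB₁A
    (hexp c' hc'0 (by linarith) _ _ (Pe_nonneg F.isLaw _) hPB₁)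
  -- the label from the side information
  obtain ⟨B₂, hB₂A, hPB₂, G₂, P₂, hlb₂, hP₂⟩ := hgra J j1 F B₁ (S'.mono (by linarith) hSB₁)
  have hSB₂ : S'.St (τ + τ + τ) J F B₂ := S'.res hτ0.le hSB₁ hB₂A
    (hexp 2 (by norm_num) (by linarith) _ _ (Pe_nonneg F.isLaw _) (by linarith))
  -- the gradients
  have hI : univ.erase (Fin.last n) ⊆ Iio (Fin.last n) := by
    intro i hi
    rw [Finset.mem_Iio]
    exact lt_of_le_of_ne (Fin.le_last i) (Finset.ne_of_mem_erase hi)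
  obtain ⟨P₁, hP₁⟩ : ∃ P₁, P₁ = P₀ - ⌊w * (J : ℝ)⌋₊ - c' := ⟨_, rfl⟩
  have hP₁r : (P₁ : ℝ) = P₀ - ⌊w * (J : ℝ)⌋₊ - c' := by
    rw [hP₁, Nat.cast_sub (by omega), Nat.cast_sub (by omega)]
  rw [← hP₁] at hlbp
  have hll : 1 / ((l : ℝ) + 1) * (J : ℝ) ≤ h / 4 * J := mul_le_mul_of_nonneg_right hl.le hJ0
  have hsN0 : 0 ≤ sN := hsV0.trans hsVN
  have g1 : (⌊(sN + 1 / ((l : ℝ) + 1)) * (J : ℝ)⌋₊ : ℝ) ≤ (sN + 1 / ((l : ℝ) + 1)) * J :=
    Nat.floor_le (by positivity)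
  have g2 := Nat.lt_floor_add_one (d l * (J : ℝ))
  have g3 : (⌊e * (J : ℝ)⌋₊ : ℝ) ≤ e * J := Nat.floor_le (by positivity)
  have g4 : e * (J : ℝ) ≤ δ * J := mul_le_mul_of_nonneg_right heδ hJ0
  obtain ⟨B₃, hB₃A, hPB₃, hlb⟩ := hgr J j3 F B₂ (S'.mono (by linarith) hSB₂) P₁
    ⌊(sN + 1 / ((l : ℝ) + 1)) * J⌋₊ ⌊d l * J⌋₊ ⌊e * J⌋₊ ⌊(sV + e) * J⌋₊ P₂ V F.ζ z z' G
    (fun y => y.2.2) (fun s => s.2.1) G₂
    ((hlbp.sub hB₂A).mono hI (by rw [hK]; exact le_max_left _ _) le_rfl)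
    (hlb₂.mono (Finset.Subset.refl _) (by rw [hK]; exact le_max_right _ _) le_rfl le_rfl le_rfl)
    (Nat.floor_le_floor (mul_le_mul_of_nonneg_right (by linarith) hJ0))
    (by rw [hP₁r]; linarith) (by rw [hP₁r, hu]; linarith) (by rw [hu]; linarith) (by linarith)
  have hSB₃ : S'.St (τ + τ + τ + τ) J F B₃ := S'.res hτ0.le hSB₂ hB₃A
    (hexp 4 (by norm_num) (by linarith) _ _ (Pe_nonneg F.isLaw _) (by linarith))
  -- a better label
  refine hbtr J j4 F B₃ (S'.mono (by linarith) hSB₃) ⟨Fin.last n, ?_, ?_⟩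
  · rw [← hsN]
    linarith
  · rw [← hsN, rad_last34 hn0, ← hv, ← hsV]
    have h5 : Lb F (Iio (Fin.last n)) (Fin.last n) K ⌊d l * J⌋₊ J ⌊w * J⌋₊ ⌊u * J⌋₊
        ⌊(sN + 1 / ((l : ℝ) + 1)) * J⌋₊ B₃ := ⟨V, z, z', G, hlb⟩
    exact Lb_mono34 h5 (Finset.Subset.refl _) le_rfl le_rfl le_rfl
      (Nat.floor_le_floor (mul_le_mul_of_nonneg_right (by linarith) hJ0)) (fl_le hw1.le J)
      (Nat.floor_le_floor (mul_le_mul_of_nonneg_right (by linarith) hJ0)) le_rfl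

end Pool.GEN.N34
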