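import Pool.Agent.H96.R1.Gw
import Pool.Agent.H5.M3F.KerC

/-!
# Exactness of every set of coordinates

For a package in any dimension and for almost every window: every set `I` of coordinates which
contains the active coordinate (the last coordinate and the targets are allowed) has a greedy list,
and it is exact at the numbers of this list, on every large event (`exv_set`, from `FZX I.card`).

* `Grd Λ I ε w`: the list `ε` of `I` is greedy at the window `w`, the active coordinate first;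
* `Ws Λ`: the windows at which all sets have greedy lists (`ws_ae`: almost every window);
* `nI Λ I w`: the sum of the numbers of `I`; it does not depend on the greedy list (`nI_eq`);
* `nI_mono`: it increases with the window; `nI_list`: the numbers of an arbitrary list, in any order
  and on balls of any radius, have a smaller sum;
* `crd_set`: the coordinates of `I` outside `I' ⊆ I` are full, given those in `I'`.
-/

set_option autoImplicit false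

namespace Pool.EXS34

open Finset MeasureTheory
open Pool.Agent.H49.Ent Pool.Agent.H32.Dense Pool.STK Pool.KA Pool.KSAT Pool.K2S Pool.PB
open Pool.GEN Pool.S6C Pool.GRW Pool.PKG Pool.R1
open Pool.M3F (ExvY)

variable {n : ℕ}

/-- A greedy list of the set `I` at the window `w`, the active coordinate first. -/
structure Grd (Λ : Finset (Fin n) → Fin n → ℝ → ℝ → ℝ) (I : Finset (Fin n)) {k : ℕ}
    (ε : Fin k → Fin n) (w : ℝ) : Prop where
  inj : Function.Injective ε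
  img : univ.image ε = I
  act : ∀ j : Fin k, (j : ℕ) = 0 → (ε j : ℕ) = 0
  mem : w ∈ Wv Λ ε

/-- The windows at which every set with the active coordinate has a greedy list. -/
def Ws (Λ : Finset (Fin n) → Fin n → ℝ → ℝ → ℝ) : Set ℝ :=
  {w | 0 < w ∧ w < 1 ∧ ∀ I : Finset (Fin n), (∃ a ∈ I, (a : ℕ) = 0) →
    ∃ ε : Fin I.card → Fin n, Grd Λ I ε w}

variable {hn : 2 ≤ n} {S : PCl n} {P : ℝ → ℝ → ℝ} {r : ℝ → ℝ}
  {P' : ℕ → List (Fin n) × Fin n → ℝ → ℝ → ℝ} {Λ : Finset (Fin n) → Fin n → ℝ → ℝ → ℝ}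

/-- **Almost every window** is in `Ws`: only countably many windows are excluded. -/
theorem ws_cnt (H : Pk hn S P r P' Λ) :
    ∃ D : Set ℝ, D.Countable ∧ ∀ w : ℝ, 0 < w → w < 1 → w ∉ D → w ∈ Ws Λ := by
  classical
  obtain ⟨al, g₀, s, d, e, K₀, N, hal, hg₀, hC⟩ := H.cl
  have key : ∀ I : Finset (Fin n), ∃ D : Set ℝ, D.Countable ∧ ((∃ a ∈ I, (a : ℕ) = 0) →
      ∀ w : ℝ, 0 < w → w < 1 → w ∉ D → ∃ ε : Fin I.card → Fin n, Grd Λ I ε w) := by
    intro I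
    by_cases hI : ∃ a ∈ I, (a : ℕ) = 0
    · obtain ⟨a, ha, ha0⟩ := hI
      obtain ⟨φ, hφ⟩ : ∃ φ : Fin I.card → Fin n, φ = fun i => I.orderEmbOfFin rfl i := ⟨_, rfl⟩
      have hφi : Function.Injective φ := by
        rw [hφ]
        exact (I.orderEmbOfFin rfl).injective
      have hφI : univ.image φ = I := by
        rw [hφ]
        exact Finset.image_orderEmbOfFin_univ I rfl
      obtain ⟨κ, hκ⟩ : ∃ κ, φ κ = a := by
        rw [← hφI] at ha
        obtain ⟨κ, -, hκ⟩ := mem_image.1 ha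
        exact ⟨κ, hκ⟩
      obtain ⟨D, hD, hcov⟩ := wv_cover (φ := φ) (κ := κ) H.lam
        (fun w h0 h1 => H.lam.act hC.ne hal (hC.actm.q hg₀) (hC.actb _ (by rw [hκ]; exact ha0))
          H.pos h0 h1)
      refine ⟨D, hD, fun _ w h0 h1 h2 => ?_⟩
      obtain ⟨σ, h3, h4⟩ := hcov w h0 h1 h2
      refine ⟨φ ∘ σ, hφi.comp σ.injective, ?_, fun j hj => ?_, h3⟩
      · refine Eq.trans ?_ hφI
        ext x
        simp only [mem_image, mem_univ, true_and, Function.comp]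
        constructor
        · rintro ⟨i, hi⟩
          exact ⟨σ i, hi⟩
        · rintro ⟨i, hi⟩
          exact ⟨σ.symm i, by rw [Equiv.apply_symm_apply]; exact hi⟩
      · show (φ (σ j) : ℕ) = 0
        rw [h4 j hj, hκ]
        exact ha0
    · exact ⟨∅, Set.countable_empty, fun h => absurd h hI⟩
  choose D hD h using key
  refine ⟨⋃ I, D I, Set.countable_iUnion hD, fun w h0 h1 h2 => ⟨h0, h1, fun I hI => ?_⟩⟩
  exact h I hI w h0 h1 fun h3 => h2 (Set.mem_iUnion.2 ⟨I, h3⟩)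

theorem ws_ae (H : Pk hn S P r P' Λ) : ∀ᵐ w : ℝ, 0 < w → w < 1 → w ∈ Ws Λ := by
  obtain ⟨D, hD, h⟩ := ws_cnt H
  filter_upwards [hD.ae_notMem volume] with w h1 h2 h3
  exact h w h2 h3 h1

/-- Exactness of a greedy list. -/
theorem Grd.vexa (H : Pk hn S P r P' Λ) {I : Finset (Fin n)} {k : ℕ} {ε : Fin k → Fin n} {w : ℝ}
    (hg : Grd Λ I ε w) (hF : FZX k) : VExa S Λ ε w := by
  obtain ⟨al, g₀, s, d, e, K₀, N, hal, hg₀, hC⟩ := H.cl
  intro ρ hρ
  exact vst_exa hF hC.ne (C₀ := 6) (by norm_num) H.tmc H.lam hal hg₀ hC.actm H.pos hg.inj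
    (fun k hk => hC.actb _ (hg.act k hk)) hg.mem.1 hg.mem.2.1 hg.mem.2.2.1 hg.mem.2.2.2 hρ

theorem Grd.cov {I : Finset (Fin n)} {k k' : ℕ} {ε : Fin k → Fin n} {ε' : Fin k' → Fin n} {w w' : ℝ}
    (h : Grd Λ I ε w) (h' : Grd Λ I ε' w') (j : Fin k') : ∃ i, ε i = ε' j := by
  have h1 : ε' j ∈ univ.image ε := by
    rw [h.img, ← h'.img]
    exact mem_image_of_mem _ (mem_univ j)
  obtain ⟨i, -, hi⟩ := mem_image.1 h1
  exact ⟨i, hi⟩

/-- The sum of the numbers of two greedy lists, at two windows. -/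
theorem grd_mono (H : Pk hn S P r P' Λ) {I : Finset (Fin n)} {k : ℕ} (hF : FZX k)
    {ε ε' : Fin k → Fin n} {w w' : ℝ} (h : Grd Λ I ε w) (h' : Grd Λ I ε' w') (hww : w ≤ w') :
    ∑ j : Fin k, vs Λ ε w (j + 1) ≤ ∑ j : Fin k, vs Λ ε' w' (j + 1) :=
  vol_mono H.ne H.pos H.lam (h.cov h') hww h.mem h'.mem.2.1.le (h'.vexa H hF)

/-- **The sum of the numbers of the set** `I` at a window. -/
noncomputable def nI (Λ : Finset (Fin n) → Fin n → ℝ → ℝ → ℝ) (I : Finset (Fin n)) (w : ℝ) : ℝ :=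
  open Classical in
  if h : ∃ ε : Fin I.card → Fin n, Grd Λ I ε w then
    ∑ j : Fin I.card, vs Λ h.choose w (j + 1) else 0

theorem nI_spec {I : Finset (Fin n)} {w : ℝ} (hw : w ∈ Ws Λ) (hI : ∃ a ∈ I, (a : ℕ) = 0) :
    ∃ ε : Fin I.card → Fin n, Grd Λ I ε w ∧ nI Λ I w = ∑ j : Fin I.card, vs Λ ε w (j + 1) := by
  have h := hw.2.2 I hI
  refine ⟨h.choose, h.choose_spec, ?_⟩
  unfold nI
  rw [dif_pos h]

/-- **The sum does not depend on the greedy list.** -/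
theorem nI_eq (H : Pk hn S P r P' Λ) {I : Finset (Fin n)} (hF : FZX I.card) {w : ℝ}
    (hw : w ∈ Ws Λ) (hI : ∃ a ∈ I, (a : ℕ) = 0) {ε : Fin I.card → Fin n} (h : Grd Λ I ε w) :
    nI Λ I w = ∑ j : Fin I.card, vs Λ ε w (j + 1) := by
  obtain ⟨ε', h', h1⟩ := nI_spec hw hI
  rw [h1]
  exact le_antisymm (grd_mono H hF h' h le_rfl) (grd_mono H hF h h' le_rfl)

/-- **The sum increases with the window.** -/
theorem nI_mono (H : Pk hn S P r P' Λ) {I : Finset (Fin n)} (hF : FZX I.card) {w w' : ℝ}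
    (hw : w ∈ Ws Λ) (hw' : w' ∈ Ws Λ) (hI : ∃ a ∈ I, (a : ℕ) = 0) (hww : w ≤ w') :
    nI Λ I w ≤ nI Λ I w' := by
  obtain ⟨ε, h, h1⟩ := nI_spec hw hI
  obtain ⟨ε', h', h1'⟩ := nI_spec hw' hI
  rw [h1, h1']
  exact grd_mono H hF h h' hww

theorem nI_le (H : Pk hn S P r P' Λ) {I : Finset (Fin n)} {w : ℝ} (hw : w ∈ Ws Λ)
    (hI : ∃ a ∈ I, (a : ℕ) = 0) : nI Λ I w ≤ I.card := by
  obtain ⟨ε, h, h1⟩ := nI_spec hw hI
  rw [h1]
  calc _ ≤ ∑ _j : Fin I.card, (1 : ℝ) :=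
        Finset.sum_le_sum fun j _ => vs_le1 H.lam ε hw.2.1.le (j + 1)
    _ = _ := by rw [Finset.sum_const, Finset.card_univ, Fintype.card_fin, nsmul_eq_mul, mul_one]

theorem le_nI (H : Pk hn S P r P' Λ) {I : Finset (Fin n)} {w : ℝ} (hw : w ∈ Ws Λ)
    (hI : ∃ a ∈ I, (a : ℕ) = 0) : I.card * w ≤ nI Λ I w := by
  obtain ⟨ε, h, h1⟩ := nI_spec hw hI
  rw [h1]
  calc _ = ∑ _j : Fin I.card, w := by
        rw [Finset.sum_const, Finset.card_univ, Fintype.card_fin, nsmul_eq_mul]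
    _ ≤ _ := Finset.sum_le_sum fun j _ => le_vs H.lam ε hw.2.1.le (j + 1)

/-- The list of a set determines the coordinates of the set. -/
theorem tup_le {J : ℕ} {F : Fam n J} {q : F.Ω → ℝ} (h0 : ∀ ω, 0 ≤ q ω) {I : Finset (Fin n)} {k : ℕ}
    {ε : Fin k → Fin n} (hε : univ.image ε = I) {T : Type} (Z : F.Ω → T) :
    CH q (fun ω (j : Fin k) => F.X J ω (ε j)) Z =
      CH q (fun ω (i : {x // x ∈ I}) => F.X J ω i) Z := by
  refine le_antisymm (CH_mono_left h0 fun ω ω' _ _ hh => funext fun j => ?_)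
    (CH_mono_left h0 fun ω ω' _ _ hh => funext fun i => ?_)
  · have h1 : ε j ∈ I := by
      rw [← hε]
      exact mem_image_of_mem _ (mem_univ j)
    exact congrFun (Prod.ext_iff.mp hh).1 ⟨ε j, h1⟩
  · obtain ⟨x, hx⟩ := i
    rw [← hε] at hx
    obtain ⟨j, -, hj⟩ := mem_image.1 hx
    have h1 := congrFun (Prod.ext_iff.mp hh).1 j
    show F.X J ω x = F.X J ω' x
    rw [← hj]
    exact h1

/-! ### Sets in a set -/

/-- **The fullness outside a set**, for families. -/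
theorem set_fam {J m : ℕ} {F : Fam m J} {A : F.Ω → Prop} (hA : 0 < Pe F.p A) {k : ℕ}
    {ε : Fin k → Fin m} {K e w : ℕ} {ρ P : Fin k → ℕ}
    (hlb : ∀ j, Lb F ((Iio j).image ε) (ε j) K e J w (ρ j) (P j) A)
    (hρ : ∀ j, ρ j ≤ J) (hP : ∀ j, P j ≤ J) {I I' : Finset (Fin m)}
    (hε : univ.image ε = I') {E : ℝ}
    (hex : ∀ (V : Type) (z : PtT F → V) (z' : LnT F → V),
      (∀ ω, A ω → z (ptr F J ω) = z' (slam F w ω)) →
      E ≤ CH (Pool.Agent.H49.Ent.cond F.p A True) (fun ω (i : {x // x ∈ I}) => F.X J ω i)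
        (fun ω => (z' (slam F w ω), F.W ω)))
    (V : Type) (z : PtT F → V) (z' : LnT F → V)
    (hz : ∀ ω, A ω → z (ptr F J ω) = z' (slam F w ω)) :
    E - ∑ j, (((J : ℝ) - P j + e) * Real.log 2 + Real.log (2 * m + 9)) ≤
      CH (Pool.Agent.H49.Ent.cond F.p A True) (fun ω (i : {x // x ∈ I \ I'}) => F.X J ω i)
        (fun ω => ((fun i : {x // x ∈ I'} => F.X J ω i), z' (slam F w ω), F.W ω)) := by
  classical
  have hq := isLaw_cond F.isLaw hA
  have h0 := hq.nonneg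
  have hqA : ∀ ω, 0 < Pool.Agent.H49.Ent.cond F.p A True ω → A ω := fun ω hω =>
    of_eq_true ((cond_pos_iff F.isLaw.nonneg A True ω).1 hω).2
  choose V₁ y y' G hG using hlb
  obtain ⟨Z, hZ⟩ : ∃ Z : F.Ω → (V × (∀ j, V₁ j)) × (ℕ × F.ζ),
      Z = fun ω => ((z' (slam F w ω), fun j => y' j (slam F w ω)), F.W ω) := ⟨_, rfl⟩
  have hE : E ≤ CH (Pool.Agent.H49.Ent.cond F.p A True)
      (fun ω (i : {x // x ∈ I}) => F.X J ω i) Z := by
    have h1 := hex (V × (∀ j, V₁ j)) (fun p => (z p, fun j => y j p))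
      (fun s => (z' s, fun j => y' j s)) (fun ω hω => by
        refine Prod.ext (hz ω hω) (funext fun j => ?_)
        exact (hG j).cls ω hω)
    rw [hZ]
    exact h1
  have h1 : CH (Pool.Agent.H49.Ent.cond F.p A True) (fun ω (i : {x // x ∈ I'}) => F.X J ω i) Z ≤
      ∑ j, (((J : ℝ) - P j + e) * Real.log 2 + Real.log (2 * m + 9)) := by
    have h2 := chart_le hq hqA hG hρ hP Z (fun ω ω' _ _ hc => by
      rw [hZ] at hc
      have h3 := Prod.ext_iff.mp hc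
      exact ⟨fun j => congrFun (Prod.ext_iff.mp h3.1).2 j, congrArg Prod.fst h3.2⟩)
    refine le_trans (CH_mono_left h0 fun ω ω' _ _ hh => funext fun i => ?_) h2
    obtain ⟨x, hx⟩ := i
    rw [← hε] at hx
    obtain ⟨j, -, hj⟩ := mem_image.1 hx
    have h1 := congrFun (Prod.ext_iff.mp hh).1 j
    show F.X J ω x = F.X J ω' x
    rw [← hj]
    exact h1
  have h2 := CH_chain h0 (fun ω (i : {x // x ∈ I \ I'}) => F.X J ω i)
    (fun ω (i : {x // x ∈ I'}) => F.X J ω i) Z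
  have h3 : CH (Pool.Agent.H49.Ent.cond F.p A True) (fun ω (i : {x // x ∈ I}) => F.X J ω i) Z ≤
      CH (Pool.Agent.H49.Ent.cond F.p A True) (fun ω => ((fun i : {x // x ∈ I \ I'} => F.X J ω i),
        (fun i : {x // x ∈ I'} => F.X J ω i))) Z := by
    refine CH_mono_left h0 fun ω ω' _ _ hh => funext fun i => ?_
    have h4 := Prod.ext_iff.mp (Prod.ext_iff.mp hh).1
    by_cases hi : (i : Fin m) ∈ I'
    · exact congrFun h4.2 ⟨i, hi⟩
    · exact congrFun h4.1 ⟨i, mem_sdiff.2 ⟨i.2, hi⟩⟩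
  have h4 : CH (Pool.Agent.H49.Ent.cond F.p A True) (fun ω (i : {x // x ∈ I \ I'}) => F.X J ω i)
      (fun ω => ((fun i : {x // x ∈ I'} => F.X J ω i), Z ω)) ≤
      CH (Pool.Agent.H49.Ent.cond F.p A True) (fun ω (i : {x // x ∈ I \ I'}) => F.X J ω i)
        (fun ω => ((fun i : {x // x ∈ I'} => F.X J ω i), z' (slam F w ω), F.W ω)) := by
    refine CH_mono_cond h0 fun ω ω' _ _ hh => ?_
    have h5 := Prod.ext_iff.mp hh
    have h6 : Z ω = Z ω' := h5.2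
    rw [hZ] at h6
    have h7 := Prod.ext_iff.mp h6
    exact Prod.ext h5.1 (Prod.ext (Prod.ext_iff.mp h7.1).1 h7.2)
  linarith

/-- **EXACTNESS OF EVERY SET OF COORDINATES** at its own numbers, at almost every window. -/
theorem exv_set (H : Pk hn S P r P' Λ) {I : Finset (Fin n)} (hF : FZX I.card) {w : ℝ}
    (hw : w ∈ Ws Λ) (hI : ∃ a ∈ I, (a : ℕ) = 0) {ρ : ℝ} (hρ : 0 < ρ) :
    ExvY S w (fun J F ω (i : {x // x ∈ I}) => F.X J ω i) (((I.card : ℝ) - nI Λ I w) - ρ) := by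
  obtain ⟨ε, h, h1⟩ := nI_spec hw hI
  refine ((h.vexa H hF ρ hρ).and H.pos).mono 0 ?_
  rintro J - F A ⟨h2, h3⟩ V z z' hz
  have h4 := h2 V z z' hz
  have hq := isLaw_cond F.isLaw h3
  rw [tup_le hq.nonneg h.img] at h4
  refine le_trans (le_of_eq ?_) h4
  rw [h1, Finset.sum_sub_distrib, Finset.sum_const, Finset.card_univ, Fintype.card_fin,
    nsmul_eq_mul, mul_one]

/-! ### Numbers -/

/-- The bound by labels, in numbers. -/
theorem num_up {k : ℕ} (s : Fin k → ℝ) {cm : ℝ} (hcm : 0 ≤ cm) {ρ : ℝ} (hρ : 0 < ρ) :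
    ∃ e₀ : ℝ, 0 < e₀ ∧ ∀ e : ℝ, 0 < e → e ≤ e₀ → ∃ J₁ : ℕ, ∀ J : ℕ, J₁ ≤ J →
      ∑ j : Fin k, (((J : ℝ) - ⌊(s j - e) * J⌋₊ + ⌊e * J⌋₊) * Real.log 2 + cm) ≤
        ((∑ j : Fin k, (1 - s j)) + ρ) * Real.log 2 * J := by
  have hl2 : 1 / 2 < Real.log 2 := by
    have := Real.log_two_gt_d9
    linarith only [this]
  have hl21 : Real.log 2 ≤ 1 := by
    have := Real.log_two_lt_d9
    linarith only [this]
  have hk0 : (0 : ℝ) ≤ k := Nat.cast_nonneg k
  refine ⟨ρ / (8 * ((k : ℝ) + 1)), by positivity, fun e he he1 => ?_⟩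
  obtain ⟨J₁, hJ₁⟩ := exists_nat_ge (k * (1 + cm) / (ρ / 8))
  refine ⟨J₁, fun J hJ => ?_⟩
  have hJ0 : (0 : ℝ) ≤ J := Nat.cast_nonneg J
  have hJ1 : (J₁ : ℝ) ≤ J := by exact_mod_cast hJ
  have h1 : ∑ j : Fin k, (((J : ℝ) - ⌊(s j - e) * J⌋₊ + ⌊e * J⌋₊) * Real.log 2 + cm) ≤
      ∑ j : Fin k, ((1 - s j) * Real.log 2 * J + (2 * (e * J) + 1 + cm)) :=
    Finset.sum_le_sum fun j _ => chart_num (by linarith) hl21 he.le
  have h2 : ∑ j : Fin k, ((1 - s j) * Real.log 2 * J + (2 * (e * J) + 1 + cm)) =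
      (∑ j : Fin k, (1 - s j)) * Real.log 2 * J + (2 * (k * e) * J + k * (1 + cm)) := by
    rw [Finset.sum_add_distrib, ← Finset.sum_mul, ← Finset.sum_mul, Finset.sum_const,
      Finset.card_univ, Fintype.card_fin, nsmul_eq_mul]
    ring
  have h3 : 2 * (k * e) ≤ ρ / 4 := by
    have h4 : e * (8 * ((k : ℝ) + 1)) ≤ ρ := by
      rwa [le_div_iff₀ (by positivity)] at he1
    have h5 : 0 ≤ e * 8 := by linarith
    linarith
  have h4 : k * (1 + cm) ≤ ρ / 8 * J := by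
    have h5 := hJ₁.trans hJ1
    rw [div_le_iff₀ (by positivity)] at h5
    linarith
  have h5 : 2 * (k * e) * J ≤ ρ / 4 * J := mul_le_mul_of_nonneg_right h3 hJ0
  have h6 : ρ * J * (1 / 2) ≤ ρ * J * Real.log 2 :=
    mul_le_mul_of_nonneg_left hl2.le (by positivity)
  have h7 : 0 ≤ ρ * J := by positivity
  rw [h2] at h1
  refine h1.trans ?_
  linarith

/-- A comparison of exactness and labels, in numbers. -/
theorem cmp_lim {m : ℕ} {S : PCl m} (hne : S.Ne) {k : ℕ} (s : Fin k → ℝ) {cm : ℝ} (hcm : 0 ≤ cm)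
    {c e₁ : ℝ} (he₁ : 0 < e₁) (h : ∀ e ρ : ℝ, 0 < e → e ≤ e₁ → 0 < ρ → Bas S (fun J _ _ =>
      (c - ρ) * Real.log 2 * J ≤
        ∑ j : Fin k, (((J : ℝ) - ⌊(s j - e) * J⌋₊ + ⌊e * J⌋₊) * Real.log 2 + cm))) :
    c ≤ ∑ j : Fin k, (1 - s j) := by
  by_contra hcon
  push Not at hcon
  obtain ⟨D, hD⟩ : ∃ D, D = c - ∑ j : Fin k, (1 - s j) := ⟨_, rfl⟩
  have hD0 : 0 < D := by rw [hD]; linarith
  obtain ⟨e₀, he₀, h1⟩ := num_up s hcm (ρ := D / 4) (by linarith)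
  obtain ⟨J₁, hJ₁⟩ := h1 (min e₀ e₁) (lt_min he₀ he₁) (min_le_left _ _)
  refine Pool.TOP.bas_no hne ((h (min e₀ e₁) (D / 4) (lt_min he₀ he₁) (min_le_right _ _)
    (by linarith)).mono (J₁ + 1) ?_)
  intro J hJ F A h2
  have h3 := h2.trans (hJ₁ J (by omega))
  have hJ0 : (0 : ℝ) < J := by
    have : 0 < J := by omega
    exact_mod_cast this
  have hl : 0 < Real.log 2 := Real.log_pos one_lt_two
  have h4 : 0 < D / 2 * (Real.log 2 * J) := by positivity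
  have h5 : c = D + ∑ j : Fin k, (1 - s j) := by rw [hD]; ring
  rw [h5] at h3
  have h6 : (D + ∑ j : Fin k, (1 - s j) - D / 4) * Real.log 2 * J =
      (∑ j : Fin k, (1 - s j) + D / 4) * Real.log 2 * J + D / 2 * (Real.log 2 * J) := by ring
  rw [h6] at h3
  linarith

/-- The labels of a list bound the entropy of a smaller set at a later window. -/
theorem sub_fam {J m : ℕ} {F : Fam m J} {A : F.Ω → Prop} (hA : 0 < Pe F.p A) {k : ℕ}
    {ε : Fin k → Fin m} {K e w w' : ℕ} (hw : w ≤ w') (hw' : w' ≤ J) {ρ P : Fin k → ℕ}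
    (hlb : ∀ j, Lb F ((Iio j).image ε) (ε j) K e J w (ρ j) (P j) A)
    (hρ : ∀ j, ρ j ≤ J) (hP : ∀ j, P j ≤ J) {I' : Finset (Fin m)}
    (hε : I' ⊆ univ.image ε) {E : ℝ}
    (hex : ∀ (V : Type) (z : PtT F → V) (z' : LnT F → V),
      (∀ ω, A ω → z (ptr F J ω) = z' (slam F w' ω)) →
      E ≤ CH (Pool.Agent.H49.Ent.cond F.p A True) (fun ω (i : {x // x ∈ I'}) => F.X J ω i)
        (fun ω => (z' (slam F w' ω), F.W ω))) :
    E ≤ ∑ j, (((J : ℝ) - P j + e) * Real.log 2 + Real.log (2 * m + 9)) := by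
  classical
  have hq := isLaw_cond F.isLaw hA
  have h0 := hq.nonneg
  have hqA : ∀ ω, 0 < Pool.Agent.H49.Ent.cond F.p A True ω → A ω := fun ω hω =>
    of_eq_true ((cond_pos_iff F.isLaw.nonneg A True ω).1 hω).2
  choose V₁ y y' G hG using hlb
  have h1 := hex (∀ j, V₁ j) (fun p j => y j p)
    (fun s j => y' j (s.1, s.2.1, s.2.2 / 2 ^ (w' - w))) (fun ω hω => funext fun j => by
      rw [← slam_coarse F hw hw' ω]
      exact (hG j).cls ω hω)
  refine h1.trans ((CH_mono_left h0 (X' := fun ω j => F.X J ω (ε j))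
    fun ω ω' _ _ hh => funext fun i => ?_).trans
    (chart_le hq hqA hG hρ hP _ fun ω ω' _ _ hc => ?_))
  · obtain ⟨x, hx⟩ := i
    obtain ⟨j, -, hj⟩ := mem_image.1 (hε hx)
    have h2 := congrFun (Prod.ext_iff.mp hh).1 j
    show F.X J ω x = F.X J ω' x
    rw [← hj]
    exact h2
  · have h2 := Prod.ext_iff.mp hc
    refine ⟨fun j => ?_, congrArg Prod.fst h2.2⟩
    have h3 := congrFun h2.1 j
    rw [← slam_coarse F hw hw' ω, ← slam_coarse F hw hw' ω'] at h3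
    exact h3

/-- **Any list of labels has smaller numbers**: in any order, on balls of any radius. -/
theorem nI_list (H : Pk hn S P r P' Λ) {I' : Finset (Fin n)} (hF : FZX I'.card) {w w' : ℝ}
    (hw : w ∈ Ws Λ) (hI : ∃ a ∈ I', (a : ℕ) = 0) (hw' : w' < w) {k : ℕ} {ε : Fin k → Fin n}
    (hε : I' ⊆ univ.image ε) {R : ℝ} (hR : R < 1) {r' : Fin k → ℝ} (hr : ∀ j, r' j ≤ R) :
    ((I'.card : ℝ) - nI Λ I' w) ≤ ∑ j : Fin k, (1 - Λ ((Iio j).image ε) (ε j) w' (r' j)) := by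
  classical
  have hcm : 0 ≤ Real.log (2 * (n : ℝ) + 9) := Real.log_nonneg (by
    have : (0 : ℝ) ≤ n := Nat.cast_nonneg n
    linarith)
  refine cmp_lim H.ne _ hcm (e₁ := 1 - R) (by linarith) fun e ρ he he1 hρ => ?_
  have h1 : ∀ j : Fin k, ∃ K, Bas S (fun J F A => Lb F ((Iio j).image ε) (ε j) K ⌊e * J⌋₊ J
      ⌊w * J⌋₊ ⌊(r' j + e) * J⌋₊ ⌊(Λ ((Iio j).image ε) (ε j) w' (r' j) - e) * J⌋₊ A) :=
    fun j => H.lam.att _ _ _ _ _ _ hw.1 hw.2.1.le hw' he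
  choose K hK using h1
  have h2 : Bas S (fun J F A => ∀ j : Fin k, Lb F ((Iio j).image ε) (ε j) (univ.sup K) ⌊e * J⌋₊ J
      ⌊w * J⌋₊ ⌊(r' j + e) * J⌋₊ ⌊(Λ ((Iio j).image ε) (ε j) w' (r' j) - e) * J⌋₊ A) := by
    refine Bas.fin fun j => Bas.mono 0 (hK j) ?_
    intro J _ F A hG
    exact hG.mono (Finset.Subset.refl _) (Finset.le_sup (f := K) (mem_univ j)) le_rfl le_rfl
      le_rfl (fl_le hw.2.1.le J) le_rfl le_rfl
  refine ((exv_set H hF hw hI hρ).and (h2.and H.pos)).mono 0 ?_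
  rintro J - F A ⟨h3, h4, h5⟩
  exact sub_fam h5 le_rfl (fl_le hw.2.1.le J) h4
    (fun j => fl_le (by linarith [hr j]) J)
    (fun j => fl_le (by linarith [H.lam.le1 ((Iio j).image ε) (ε j) w' (r' j)]) J) hε h3

/-- **A larger set has a larger volume**, also at an earlier window. -/
theorem vol_sub (H : Pk hn S P r P' Λ) {I I' : Finset (Fin n)} (hII : I' ⊆ I)
    (hF : FZX I'.card) {w w' : ℝ} (hw : w ∈ Ws Λ) (hw' : w' ∈ Ws Λ) (hww : w ≤ w')
    (hI : ∃ a ∈ I', (a : ℕ) = 0) :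
    ((I'.card : ℝ) - nI Λ I' w') ≤ (I.card : ℝ) - nI Λ I w := by
  classical
  obtain ⟨a, ha, ha0⟩ := hI
  obtain ⟨ε, hg, h1⟩ := nI_spec hw ⟨a, hII ha, ha0⟩
  have hcm : 0 ≤ Real.log (2 * (n : ℝ) + 9) := Real.log_nonneg (by
    have : (0 : ℝ) ≤ n := Nat.cast_nonneg n
    linarith)
  have e1 : (I.card : ℝ) - nI Λ I w = ∑ j : Fin I.card, (1 - vs Λ ε w (j + 1)) := by
    rw [h1, Finset.sum_sub_distrib, Finset.sum_const, Finset.card_univ, Fintype.card_fin,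
      nsmul_eq_mul, mul_one]
  rw [e1]
  refine cmp_lim H.ne _ hcm one_pos fun e ρ he he1 hρ => ?_
  obtain ⟨K, hK⟩ := vst_att H.lam hg.mem.1 hg.mem.2.1 hg.mem.2.2.1 hg.mem.2.2.2 he
  have h2 : Bas S (fun J F A => ∀ j : Fin I.card, Lb F ((Iio j).image ε) (ε j) K ⌊e * J⌋₊ J
      ⌊w * J⌋₊ ⌊min (vs Λ ε w j + e) 1 * J⌋₊ ⌊(vs Λ ε w (j + 1) - e) * J⌋₊ A) :=
    Bas.fin fun j => hK j j le_rfl
  refine ((exv_set H hF hw' ⟨a, ha, ha0⟩ hρ).and (h2.and H.pos)).mono 0 ?_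
  rintro J - F A ⟨h3, h4, h5⟩
  exact sub_fam h5 (Nat.floor_le_floor (mul_le_mul_of_nonneg_right hww (Nat.cast_nonneg J)))
    (fl_le hw'.2.1.le J) h4 (fun j => fl_le (min_le_right _ _) J)
    (fun j => fl_le (by linarith [vs_le1 H.lam ε hw.2.1.le (j + 1 : ℕ)]) J)
    (by rw [hg.img]; exact hII) h3

/-- **The coordinates outside `I'` are full**, given the coordinates of `I'` and any function which
is closed at the window. -/
theorem crd_set (H : Pk hn S P r P' Λ) {I I' : Finset (Fin n)} (hII : I' ⊆ I)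
    (hF : FZX I.card) {w : ℝ} (hw : w ∈ Ws Λ) (hI : ∃ a ∈ I', (a : ℕ) = 0) {ρ : ℝ} (hρ : 0 < ρ) :
    Bas S (fun J F A => ∀ (V : Type) (z : PtT F → V) (z' : LnT F → V),
      (∀ ω, A ω → z (ptr F J ω) = z' (slam F ⌊w * J⌋₊ ω)) →
      ((((I.card : ℝ) - nI Λ I w) - ((I'.card : ℝ) - nI Λ I' w)) - ρ) * Real.log 2 * J ≤
        CH (Pool.Agent.H49.Ent.cond F.p A True) (fun ω (i : {x // x ∈ I \ I'}) => F.X J ω i)
          (fun ω => ((fun i : {x // x ∈ I'} => F.X J ω i), z' (slam F ⌊w * J⌋₊ ω), F.W ω))) := by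
  classical
  obtain ⟨a, ha, ha0⟩ := hI
  obtain ⟨ε, hg, h1⟩ := nI_spec hw ⟨a, ha, ha0⟩
  have hcm : 0 ≤ Real.log (2 * (n : ℝ) + 9) := Real.log_nonneg (by
    have : (0 : ℝ) ≤ n := Nat.cast_nonneg n
    linarith)
  have e1 : (I'.card : ℝ) - nI Λ I' w = ∑ j : Fin I'.card, (1 - vs Λ ε w (j + 1)) := by
    rw [h1, Finset.sum_sub_distrib, Finset.sum_const, Finset.card_univ, Fintype.card_fin,
      nsmul_eq_mul, mul_one]
  obtain ⟨e, he, h2⟩ := num_up (fun j : Fin I'.card => vs Λ ε w (j + 1)) hcm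
    (ρ := ρ / 2) (by linarith)
  obtain ⟨J₁, hJ₁⟩ := h2 e he le_rfl
  obtain ⟨K, hK⟩ := vst_att H.lam hg.mem.1 hg.mem.2.1 hg.mem.2.2.1 hg.mem.2.2.2 he
  have h3 : Bas S (fun J F A => ∀ j : Fin I'.card, Lb F ((Iio j).image ε) (ε j) K ⌊e * J⌋₊ J
      ⌊w * J⌋₊ ⌊min (vs Λ ε w j + e) 1 * J⌋₊ ⌊(vs Λ ε w (j + 1) - e) * J⌋₊ A) :=
    Bas.fin fun j => hK j j le_rfl
  refine ((exv_set H hF hw ⟨a, hII ha, ha0⟩ (ρ := ρ / 2) (by linarith)).and
    (h3.and H.pos)).mono J₁ ?_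
  rintro J hJ F A ⟨h4, h5, h6⟩ V z z' hz
  have h7 := set_fam h6 h5 (fun j => fl_le (min_le_right _ _) J)
    (fun j => fl_le (by linarith [vs_le1 H.lam ε hw.2.1.le (j + 1 : ℕ)]) J) (I := I) hg.img h4
    V z z' hz
  have h8 := hJ₁ J hJ
  rw [← e1] at h8
  refine le_trans ?_ h7
  have e2 : ((((I.card : ℝ) - nI Λ I w) - ((I'.card : ℝ) - nI Λ I' w)) - ρ) * Real.log 2 * J =
      (((I.card : ℝ) - nI Λ I w) - ρ / 2) * Real.log 2 * J -
        (((I'.card : ℝ) - nI Λ I' w) + ρ / 2) * Real.log 2 * J := by ring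
  rw [e2]
  linarith

end Pool.EXS34
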