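import Pool.Agent.H83.GN.Num

/-!
# The rates of countably many rows

`row_of_eta34`: the rates of a row from the numbers of the entropies at the rational scales.
`rows_nums34`: countably many rows, each given any function of the point: all the rates are numbers
of one subclass.
-/

set_option autoImplicit false

namespace Pool.GEN.N34

open Finset Real Pool.GEN Pool.GEN.N83
open Pool.Agent.H49.Ent Pool.Agent.H32.Dense Pool.STK Pool.KA Pool.K2S Pool.PB Pool.S6C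

variable {m : ℕ}

/-- The rates of a row, from the numbers of the entropies. -/
theorem row_of_eta34 {S' : PCl m} (hne : S'.Ne)
    (hpos : ∀ (τ : ℝ) (J : ℕ) (F : Fam m J) (A : F.Ω → Prop), S'.St τ J F A → 0 < Pe F.p A)
    (i₁ : Fin m) {B : ℕ}
    (hbx' : Bas S' (fun _ F A => ∀ ω, 0 < F.p ω → A ω → |F.x ω i₁| ≤ B))
    (β : ∀ J : ℕ, Fam m J → Type)
    (φ : ∀ (J : ℕ) (F : Fam m J), (Fin m → ℤ) × (ℕ × F.ζ) → β J F)
    {η₀ : ℝ} (hη₀ : ∀ h : ℝ, 0 < h → Bas S' (fun J F A =>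
      |H (Pool.Agent.H49.Ent.cond F.p A True) (fun ω => ((0 : ℤ), φ J F (ptr F J ω))) - η₀ * J| ≤
        h * J))
    (hη : ∀ q : Q01, ∃ η : ℝ, ∀ h : ℝ, 0 < h → Bas S' (fun J F A =>
      |H (Pool.Agent.H49.Ent.cond F.p A True)
        (fun ω => (F.X ⌊((q : ℚ) : ℝ) * J⌋₊ ω i₁, φ J F (ptr F J ω))) - η * J| ≤ h * J)) :
    ∃ ρ : ℝ → ℝ, LipschitzWith 1 ρ ∧ Monotone ρ ∧ ρ 0 = 0 ∧
        ∀ Q : ℝ, 0 ≤ Q → Q ≤ 1 → ∀ h : ℝ, 0 < h → Bas S' (fun J F A =>
          |CH (Pool.Agent.H49.Ent.cond F.p A True) (fun ω => F.X ⌊Q * J⌋₊ ω i₁)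
            (fun ω => φ J F (ptr F J ω)) - ρ Q * Real.log 2 * J| ≤ h * J) := by
  classical
  have hl2 : 0 < Real.log 2 := Real.log_pos (by norm_num)
  have hpos' : Bas S' (fun _ F A => 0 < Pe F.p A) :=
    ⟨1, one_pos, 0, fun J _ F A hA => hpos 1 J F A hA⟩
  -- rational scales
  have hrat : ∀ q : Q01, ∃ ρ : ℝ, ∀ h : ℝ, 0 < h → Bas S' (fun J F A =>
      |CH (Pool.Agent.H49.Ent.cond F.p A True) (fun ω => F.X ⌊((q : ℚ) : ℝ) * J⌋₊ ω i₁)
        (fun ω => φ J F (ptr F J ω)) - ρ * J| ≤ h * J) := by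
    intro q
    obtain ⟨η, hη⟩ := hη q
    refine ⟨η - η₀, fun h hh => ?_⟩
    refine Bas.mono 0 (((hη (h / 2) (half_pos hh)).and (hη₀ (h / 2) (half_pos hh))).and hpos') ?_
    rintro J - F A ⟨⟨k1, k2⟩, k3⟩
    have hcl := isLaw_cond F.isLaw k3
    have e1 : H (Pool.Agent.H49.Ent.cond F.p A True)
        (fun ω => ((0 : ℤ), φ J F (ptr F J ω))) =
        H (Pool.Agent.H49.Ent.cond F.p A True) (fun ω => φ J F (ptr F J ω)) :=
      H_congr hcl.nonneg (fun _ _ _ _ e => Prod.ext rfl e)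
        (fun _ _ _ _ e => (Prod.ext_iff.1 e).2)
    have e2 : CH (Pool.Agent.H49.Ent.cond F.p A True) (fun ω => F.X ⌊((q : ℚ) : ℝ) * J⌋₊ ω i₁)
        (fun ω => φ J F (ptr F J ω)) =
        H (Pool.Agent.H49.Ent.cond F.p A True)
          (fun ω => (F.X ⌊((q : ℚ) : ℝ) * J⌋₊ ω i₁, φ J F (ptr F J ω))) -
        H (Pool.Agent.H49.Ent.cond F.p A True) (fun ω => φ J F (ptr F J ω)) := rfl
    rw [e1] at k2
    rw [e2]
    rw [abs_le] at k1 k2 ⊢
    constructor <;> linarith [k1.1, k1.2, k2.1, k2.2]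
  obtain ⟨r, h1, h2, h3⟩ := nums hne (f := fun J F A k =>
    CH (Pool.Agent.H49.Ent.cond F.p A True) (fun ω => F.X k ω i₁)
      (fun ω => φ J F (ptr F J ω))) hl2.le hrat
    (Bas.mono 0 hpos' (by
      intro J _ F A hA k k' hk1 _
      have hcl := isLaw_cond F.isLaw hA
      obtain ⟨n, rfl⟩ := Nat.exists_eq_add_of_le hk1
      have a1 := coord_near hcl F.x i₁ (fun ω => φ J F (ptr F J ω)) k n
      refine ⟨a1.1, a1.2.trans (le_of_eq ?_)⟩
      push_cast
      show _ = CH (Pool.Agent.H49.Ent.cond F.p A True) (fun ω => fl k (F.x ω) i₁)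
        (fun ω => φ J F (ptr F J ω)) + Real.log 2 * ((k : ℝ) + n - k)
      ring))
  have hr0 : r 0 = 0 := by
    obtain ⟨c₀, hc₀⟩ : ∃ c₀ : ℝ, c₀ = Real.log ((Finset.Icc (-(B : ℤ)) B).card : ℝ) := ⟨_, rfl⟩
    have b1 : r 0 ≤ 0 := by
      have := lim_le (g := fun _ _ _ => 0) (b := 0) (c := 0) (C := c₀) hne
        (h3 0 le_rfl zero_le_one) (fun h hh => ⟨1, one_pos, 0, fun J _ F A _ => by
          show |(0 : ℝ) - 0 * (J : ℝ)| ≤ h * J
          rw [zero_mul, sub_zero, abs_zero]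
          positivity⟩)
        (Bas.mono 0 (hpos'.and hbx') (fun J _ F A hA => by
          have hcl := isLaw_cond F.isLaw hA.1
          have c1 : ⌊(0 : ℝ) * J⌋₊ = 0 := by simp
          simp only [c1]
          have c2 := CH_le_H' hcl (fun ω => F.X 0 ω i₁) (fun ω => φ J F (ptr F J ω))
          have c3 : H (Pool.Agent.H49.Ent.cond F.p A True) (fun ω => F.X 0 ω i₁) ≤ c₀ := by
            have c4 := H_le_cnt F.isLaw (fun ω => F.X 0 ω i₁) hA.1
            rw [hc₀]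
            refine c4.trans (Real.log_le_log ?_ ?_)
            · have := one_le_cnt F.isLaw (fun ω => F.X 0 ω i₁) hA.1
              exact_mod_cast this
            · have c5 := cnt_le_card F.p (fun ω => F.X 0 ω i₁) (A := A)
                (Finset.Icc (-(B : ℤ)) B) (fun ω hω hA' => by
                  have d1 := abs_le.1 (hA.2 ω hω hA')
                  have d2 : F.X 0 ω i₁ = ⌊F.x ω i₁⌋ := by
                    show ⌊(2 : ℝ) ^ 0 * F.x ω i₁⌋ = _
                    rw [pow_zero, one_mul]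
                  rw [d2, Finset.mem_Icc]
                  constructor
                  · rw [Int.le_floor]
                    push_cast
                    exact d1.1
                  · have d3 := Int.floor_le (F.x ω i₁)
                    exact_mod_cast d3.trans d1.2)
              exact_mod_cast c5
          linarith))
      linarith
    have b2 : 0 ≤ r 0 := by
      have := lim_le (f := fun _ _ _ => 0) (a := 0) (c := 0) (C := 0) hne
        (fun h hh => ⟨1, one_pos, 0, fun J _ F A _ => by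
          show |(0 : ℝ) - 0 * (J : ℝ)| ≤ h * J
          rw [zero_mul, sub_zero, abs_zero]
          positivity⟩) (h3 0 le_rfl zero_le_one)
        (Bas.mono 0 hpos' (fun J _ F A hA => by
          have := CH_nonneg (isLaw_cond F.isLaw hA).nonneg (fun ω => F.X ⌊(0 : ℝ) * J⌋₊ ω i₁)
            (fun ω => φ J F (ptr F J ω))
          linarith))
      linarith
    exact le_antisymm b1 b2
  refine ⟨fun g => r g / Real.log 2, ?_, ?_, by simp [hr0], ?_⟩
  · refine LipschitzWith.of_dist_le_mul fun x y => ?_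
    have a1 := h1.dist_le_mul x y
    rw [Real.dist_eq, Real.dist_eq] at a1 ⊢
    have a2 : r x / Real.log 2 - r y / Real.log 2 = (r x - r y) / Real.log 2 := by
      ring
    rw [a2, abs_div, abs_of_pos hl2, div_le_iff₀ hl2]
    refine a1.trans (le_of_eq ?_)
    show Real.log 2 * |x - y| = _
    push_cast
    ring
  · intro x y hxy
    exact div_le_div_of_nonneg_right (h2 hxy) hl2.le
  · intro g hg0 hg1 h hh
    refine Bas.mono 0 (h3 g hg0 hg1 h hh) ?_
    intro J _ F A hA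
    have e1 : r g / Real.log 2 * Real.log 2 * J = r g * J := by
      rw [div_mul_cancel₀ _ hl2.ne']
    rw [e1]
    exact hA


/-- **The rates of countably many rows**, each given a function of the point. -/
theorem rows_nums34 {κ : Type} [Countable κ] {S : PCl m} (hS : S.Ne)
    (hpos : ∀ (τ : ℝ) (J : ℕ) (F : Fam m J) (A : F.Ω → Prop), S.St τ J F A → 0 < Pe F.p A)
    {M : ℝ} (hcnt : Bas S (fun J F A => ∀ k : ℕ, k ≤ J →
      (cnt F.p (ptr F k) A : ℝ) ≤ Real.exp (M * J))) (i₁ : κ → Fin m) {B : ℕ}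
    (hbx : Bas S (fun _ F A => ∀ ω, 0 < F.p ω → A ω → ∀ i, |F.x ω i| ≤ B))
    (β : κ → ∀ J : ℕ, Fam m J → Type)
    (φ : ∀ (c : κ) (J : ℕ) (F : Fam m J), (Fin m → ℤ) × (ℕ × F.ζ) → β c J F) :
    ∃ S' : PCl m, S'.Ne ∧
      (∀ (τ : ℝ) (J : ℕ) (F : Fam m J) (A : F.Ω → Prop), S'.St τ J F A → S.St τ J F A) ∧
      ∃ ρ : κ → ℝ → ℝ, (∀ c, LipschitzWith 1 (ρ c)) ∧ (∀ c, Monotone (ρ c)) ∧
        (∀ c, ρ c 0 = 0) ∧
        ∀ (c : κ) (Q : ℝ), 0 ≤ Q → Q ≤ 1 → ∀ h : ℝ, 0 < h → Bas S' (fun J F A =>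
          |CH (Pool.Agent.H49.Ent.cond F.p A True) (fun ω => F.X ⌊Q * J⌋₊ ω (i₁ c))
            (fun ω => φ c J F (ptr F J ω)) - ρ c Q * Real.log 2 * J| ≤ h * J) := by
  classical
  rcases isEmpty_or_nonempty κ with hemp | hne0
  · exact ⟨S, hS, fun _ _ _ _ h => h, fun _ _ => 0, fun c => (hemp.false c).elim,
      fun c => (hemp.false c).elim, fun c => (hemp.false c).elim, fun c => (hemp.false c).elim⟩
  -- the functions
  obtain ⟨e, he⟩ := exists_surjective_nat (κ × Option Q01)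
  obtain ⟨y, hy0, hy1⟩ : ∃ y : ∀ (a : κ × Option Q01) (J : ℕ) (F : Fam m J),
      F.Ω → ℤ × β a.1 J F,
      (∀ c J F, y (c, none) J F = fun ω => ((0 : ℤ), φ c J F (ptr F J ω))) ∧
      ∀ c q J F, y (c, some q) J F =
        fun ω => (F.X ⌊((q : ℚ) : ℝ) * J⌋₊ ω (i₁ c), φ c J F (ptr F J ω)) := by
    refine ⟨fun a J F ω => (match a.2 with
      | none => 0
      | some q => F.X ⌊((q : ℚ) : ℝ) * J⌋₊ ω (i₁ a.1), φ a.1 J F (ptr F J ω)),
      fun c J F => rfl, fun c q J F => rfl⟩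
  have hk : ∀ (q : Q01) (J : ℕ), ⌊((q : ℚ) : ℝ) * J⌋₊ ≤ J := by
    intro q J
    refine Nat.floor_le_of_le ?_
    have h1 : ((q : ℚ) : ℝ) ≤ 1 := by exact_mod_cast q.2.2
    have := mul_le_mul_of_nonneg_right h1 (Nat.cast_nonneg (α := ℝ) J)
    linarith
  have hcy : ∀ a : κ × Option Q01, Bas S (fun J F A =>
      (cnt F.p (y a J F) A : ℝ) ≤ Real.exp (M * J)) := by
    rintro ⟨c, q | q⟩
    · refine Bas.mono 0 hcnt ?_
      intro J _ F A hA
      rw [hy0]
      have h1 := cnt_comp_le F.p (ptr F J) (fun ω => ((0 : ℤ), φ c J F (ptr F J ω)))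
        (A := A) (fun y => (0, φ c J F y)) (fun ω _ _ => rfl)
      calc (cnt F.p (fun ω => ((0 : ℤ), φ c J F (ptr F J ω))) A : ℝ)
          ≤ cnt F.p (ptr F J) A := by exact_mod_cast h1
        _ ≤ Real.exp (M * J) := hA J le_rfl
    · refine Bas.mono 0 hcnt ?_
      intro J _ F A hA
      rw [hy1]
      obtain ⟨ψ, hψ⟩ := ptr_coarse F (hk q J)
      have h1 := cnt_comp_le F.p (ptr F J)
        (fun ω => (F.X ⌊((q : ℚ) : ℝ) * J⌋₊ ω (i₁ c), φ c J F (ptr F J ω)))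
        (A := A) (fun y => ((ψ y).1 (i₁ c), φ c J F y)) (fun ω _ _ => by
          rw [← hψ ω]
          rfl)
      calc (cnt F.p (fun ω => (F.X ⌊((q : ℚ) : ℝ) * J⌋₊ ω (i₁ c),
            φ c J F (ptr F J ω))) A : ℝ)
          ≤ cnt F.p (ptr F J) A := by exact_mod_cast h1
        _ ≤ Real.exp (M * J) := hA J le_rfl
  obtain ⟨S', hne, hsub, hη⟩ := ext_ent_base hS hpos (fun i J F => ℤ × β (e i).1 J F)
    (fun i => y (e i)) (fun _ => M) (fun i => hcy (e i))
  have hη' : ∀ a : κ × Option Q01, ∃ η : ℝ, ∀ h : ℝ, 0 < h → Bas S' (fun J F A =>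
      |H (Pool.Agent.H49.Ent.cond F.p A True) (y a J F) - η * J| ≤ h * J) := by
    intro a
    obtain ⟨i, rfl⟩ := he a
    exact hη i
  have hrow : ∀ c : κ, ∃ ρ : ℝ → ℝ, LipschitzWith 1 ρ ∧ Monotone ρ ∧ ρ 0 = 0 ∧
        ∀ Q : ℝ, 0 ≤ Q → Q ≤ 1 → ∀ h : ℝ, 0 < h → Bas S' (fun J F A =>
          |CH (Pool.Agent.H49.Ent.cond F.p A True) (fun ω => F.X ⌊Q * J⌋₊ ω (i₁ c))
            (fun ω => φ c J F (ptr F J ω)) - ρ Q * Real.log 2 * J| ≤ h * J) := by
    intro c
    obtain ⟨η₀, hη₀⟩ := hη' (c, none)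
    refine row_of_eta34 hne (fun τ J F A hA => hpos τ J F A (hsub τ J F A hA)) (i₁ c)
      (Bas.mono 0 (hbx.sub hsub) fun J _ F A h ω h1 h2 => h ω h1 h2 (i₁ c)) (β c) (φ c)
      (η₀ := η₀) ?_ ?_
    · intro h hh
      have h1 := hη₀ h hh
      simp only [hy0] at h1
      exact h1
    · intro q
      obtain ⟨η, hη⟩ := hη' (c, some q)
      refine ⟨η, fun h hh => ?_⟩
      have h1 := hη h hh
      simp only [hy1] at h1
      exact h1
  choose ρ h1 h2 h3 h4 using hrow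
  exact ⟨S', hne, hsub, ρ, h1, h2, h3, h4⟩

end Pool.GEN.N34
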