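import Pool.Agent.H80.GEN.NumA
import Pool.Agent.H34.GEN.Rows
import Pool.Agent.H2.GEN.ChT

/-!
# The numbers of the counterexamples to the exactness theorem

`NumL L`: the numbers of a counterexample for a system `L` of labels (`NumA` is the case of the
chain labels). `HasThr L`: every class has a subclass with thresholds for `L`.
`rate_all`: every class as in `ClX` has a subclass with the rates of all coordinates.
`exists_numL`: every counterexample has numbers. `lim_of_not`: if `FTX n` fails, there are limit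
numbers.
-/

set_option autoImplicit false

namespace Pool.ALL

open Finset Real MvPolynomial
open Pool.Agent.H49.Ent Pool.Agent.H32.Dense Pool.STK Pool.KA Pool.KSAT Pool.K2S Pool.PB Pool.S6C
open Pool.GEN Pool.LBT Pool.STR Pool.GEN.N83
open Pool.CHT (chsys thr_chsys)
open scoped NNReal

variable {n : ℕ} {s : Fin n → ℝ} {d : ℕ → ℝ} {al : ℝ} {g₀ : ℝ → ℝ} {ρ e : ℝ} {K₀ : ℕ}
  {N : ℚ → ℚ → ℝ} {S : PCl n}

/-- Every class has a subclass with thresholds for the labels `L`. -/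
def HasThr (L : LSys n) : Prop := ∀ S : PCl n, S.Ne → ∃ (S' : PCl n) (P : L.ι → ℝ → ℝ → ℝ),
  S'.Ne ∧ (∀ (τ : ℝ) (J : ℕ) (F : Fam n J) (A : F.Ω → Prop), S'.St τ J F A → S.St τ J F A) ∧
    ThrOf L S' P

theorem hasThr_chsys (n : ℕ) (θ : ℝ) : HasThr (chsys n θ) := fun _ hS => thr_chsys θ hS

theorem hasThr_LbS (n : ℕ) (θ : ℝ) : HasThr (LbS n θ) := hasThr_chsys n θ

/-- **The numbers of a counterexample with the slack `e`**, for the labels `L`. -/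
def NumL (L : LSys n) (s : Fin n → ℝ) (d : ℕ → ℝ) (al : ℝ) (g₀ : ℝ → ℝ) (ρ e : ℝ)
    (P : L.ι → ℝ → ℝ → ℝ) (r : Fin n → ℝ → ℝ) : Prop :=
  ∃ S : PCl n, BadX s d al g₀ ρ e S ∧ ThrOf L S P ∧ ∀ k, RateOf S k (r k)

theorem numA_eq {θ : ℝ} {P : List (Fin n) × Fin n → ℝ → ℝ → ℝ} {r : Fin n → ℝ → ℝ} :
    NumA θ s d al g₀ ρ e P r ↔ NumL (LbS n θ) s d al g₀ ρ e P r := Iff.rfl

theorem NumL.slack {L : LSys n} {P : L.ι → ℝ → ℝ → ℝ} {r : Fin n → ℝ → ℝ}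
    (h : NumL L s d al g₀ ρ e P r) {e' : ℝ} (he : e ≤ e') : NumL L s d al g₀ ρ e' P r := by
  obtain ⟨S, h1, h2, h3⟩ := h
  exact ⟨S, h1.slack he, h2, h3⟩

theorem NumL.law {L : LSys n} {P : L.ι → ℝ → ℝ → ℝ} {r : Fin n → ℝ → ℝ}
    (h : NumL L s d al g₀ ρ e P r) : NumLaw (fun _ => 1) P r := by
  obtain ⟨S, -, h2, h3⟩ := h
  exact ⟨h2.law, fun i a w h0 h1 h4 => (h0.trans h1).trans (h2.low i a w h0 h1 h4), h2.up,
    fun k => (h3 k).lip.lipschitzOnWith, fun k => (h3 k).mono.monotoneOn _, fun k => (h3 k).zero⟩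

theorem NumA.slack {θ : ℝ} {P : List (Fin n) × Fin n → ℝ → ℝ → ℝ} {r : Fin n → ℝ → ℝ}
    (h : NumA θ s d al g₀ ρ e P r) {e' : ℝ} (he : e ≤ e') : NumA θ s d al g₀ ρ e' P r :=
  NumL.slack (L := LbS n θ) h he

theorem NumA.law {θ : ℝ} {P : List (Fin n) × Fin n → ℝ → ℝ → ℝ} {r : Fin n → ℝ → ℝ}
    (h : NumA θ s d al g₀ ρ e P r) : NumLaw (fun _ => 1) P r := NumL.law (L := LbS n θ) h

/-- **The rates of all coordinates**, and of countably many more rows. -/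
theorem rates_all {κ : Type} [Countable κ] (h : ClX s d al g₀ e K₀ N S) (i₁ : κ → Fin n)
    (β : κ → ∀ J : ℕ, Fam n J → Type)
    (φ : ∀ (c : κ) (J : ℕ) (F : Fam n J), (Fin n → ℤ) × (ℕ × F.ζ) → β c J F) :
    ∃ S' : PCl n, S'.Ne ∧
      (∀ (τ : ℝ) (J : ℕ) (F : Fam n J) (A : F.Ω → Prop), S'.St τ J F A → S.St τ J F A) ∧
      ∃ ρ : κ → ℝ → ℝ, (∀ c, LipschitzWith 1 (ρ c)) ∧ (∀ c, Monotone (ρ c)) ∧
        (∀ c, ρ c 0 = 0) ∧
        ∀ (c : κ) (Q : ℝ), 0 ≤ Q → Q ≤ 1 → ∀ h : ℝ, 0 < h → Bas S' (fun J F A =>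
          |CH (Pool.Agent.H49.Ent.cond F.p A True) (fun ω => F.X ⌊Q * J⌋₊ ω (i₁ c))
            (fun ω => φ c J F (ptr F J ω)) - ρ c Q * Real.log 2 * J| ≤ h * J) := by
  refine Pool.GEN.N34.rows_nums34 h.ne h.pos h.cnt i₁ (B := 2) ?_ β φ
  refine ⟨1, one_pos, 0, fun J _ F A hA ω _ _ i => ?_⟩
  obtain ⟨-, -, -, -, h5, -, -⟩ := h.mem 1 J F A hA
  obtain ⟨h6, h7⟩ := gd_x h5 ω i
  rw [abs_of_nonneg h6]
  push_cast
  exact h7

theorem rate_all (h : ClX s d al g₀ e K₀ N S) : ∃ (S' : PCl n) (r : Fin n → ℝ → ℝ), S'.Ne ∧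
    (∀ (τ : ℝ) (J : ℕ) (F : Fam n J) (A : F.Ω → Prop), S'.St τ J F A → S.St τ J F A) ∧
    ∀ k, RateOf S' k (r k) := by
  obtain ⟨S', h1, h2, r, h3, h4, h5, h6⟩ := rates_all h (κ := Fin n) (fun k => k)
    (fun _ _ F => (Fin n → ℤ) × (ℕ × F.ζ)) (fun k J F => oth k J F)
  exact ⟨S', r, h1, h2, fun k => ⟨h3 k, h4 k, h5 k, h6 k⟩⟩

/-! ### One class -/

/-- The coordinates in `I`, with the time and the side information. -/
def inc34 (I : Finset (Fin n)) (J : ℕ) (F : Fam n J) (y : (Fin n → ℤ) × (ℕ × F.ζ)) :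
    (Fin n → ℤ) × (ℕ × F.ζ) := (fun l => if l ∈ I then y.1 l else 0, y.2)

/-- **The rate of the rows of the coordinate `k`**, given all the digits of the coordinates in `I`,
the time and the side information. -/
structure RateI (S : PCl n) (k : Fin n) (I : Finset (Fin n)) (r : ℝ → ℝ) : Prop where
  lip : LipschitzWith 1 r
  mono : Monotone r
  zero : r 0 = 0
  num : ∀ Q : ℝ, 0 ≤ Q → Q ≤ 1 → ∀ h : ℝ, 0 < h → Bas S (fun J F A =>
    |CH (Pool.Agent.H49.Ent.cond F.p A True) (fun ω => F.X ⌊Q * J⌋₊ ω k)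
      (fun ω => inc34 I J F (ptr F J ω)) - r Q * Real.log 2 * J| ≤ h * J)

theorem RateI.sub {S S' : PCl n} {k : Fin n} {I : Finset (Fin n)} {r : ℝ → ℝ}
    (h : RateI S k I r)
    (hs : ∀ (τ : ℝ) (J : ℕ) (F : Fam n J) (A : F.Ω → Prop), S'.St τ J F A → S.St τ J F A) :
    RateI S' k I r :=
  ⟨h.lip, h.mono, h.zero, fun Q h0 h1 h' hh => (h.num Q h0 h1 h' hh).sub hs⟩

theorem oth_eq_inc34 (k : Fin n) (J : ℕ) (F : Fam n J) :
    oth k J F = inc34 (univ.erase k) J F := by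
  funext y
  unfold oth inc34
  refine Prod.ext (funext fun l => ?_) rfl
  change Function.update y.1 k 0 l = if l ∈ univ.erase k then y.1 l else 0
  by_cases h : l = k
  · subst h
    simp
  · rw [Function.update_of_ne h, if_pos (Finset.mem_erase.2 ⟨h, Finset.mem_univ l⟩)]

/-- All the other coordinates. -/
theorem RateI.of {k : Fin n} {r : ℝ → ℝ} (h : RateI S k (univ.erase k) r) : RateOf S k r :=
  ⟨h.lip, h.mono, h.zero, fun Q h0 h1 h' hh => by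
    have h2 := h.num Q h0 h1 h' hh
    simp only [← oth_eq_inc34] at h2
    exact h2⟩

theorem RateOf.inc {k : Fin n} {r : ℝ → ℝ} (h : RateOf S k r) : RateI S k (univ.erase k) r :=
  ⟨h.lip, h.mono, h.zero, fun Q h0 h1 h' hh => by
    have h2 := h.num Q h0 h1 h' hh
    simp only [oth_eq_inc34] at h2
    exact h2⟩

/-- **The numbers of one class**: thresholds for the labels `L` and the rates of all coordinates
given all sets of coordinates, in a nonempty subclass. -/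
theorem numxI {L : LSys n} (hL : HasThr L) (h : ClX s d al g₀ e K₀ N S) :
    ∃ (S' : PCl n) (P : L.ι → ℝ → ℝ → ℝ) (r : Fin n → Finset (Fin n) → ℝ → ℝ),
      ClX s d al g₀ e K₀ N S' ∧
      (∀ (τ : ℝ) (J : ℕ) (F : Fam n J) (A : F.Ω → Prop), S'.St τ J F A → S.St τ J F A) ∧
      ThrOf L S' P ∧ ∀ k I, RateI S' k I (r k I) := by
  obtain ⟨S₁, P, a1, a2, a3⟩ := hL S h.ne
  obtain ⟨S₂, b1, b2, r, h3, h4, h5, h6⟩ := rates_all (h.sub a1 a2)
    (κ := Fin n × Finset (Fin n)) (fun c => c.1)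
    (fun _ _ F => (Fin n → ℤ) × (ℕ × F.ζ)) (fun c J F => inc34 c.2 J F)
  exact ⟨S₂, P, fun k I => r (k, I), (h.sub a1 a2).sub b1 b2,
    fun τ J F A hA => a2 τ J F A (b2 τ J F A hA), a3.sub b2,
    fun k I => ⟨h3 (k, I), h4 (k, I), h5 (k, I), h6 (k, I)⟩⟩

/-- **The numbers of one class**: thresholds for the labels `L` and the rates. -/
theorem numx {L : LSys n} (hL : HasThr L) (h : ClX s d al g₀ e K₀ N S) :
    ∃ (S' : PCl n) (P : L.ι → ℝ → ℝ → ℝ) (r : Fin n → ℝ → ℝ), ClX s d al g₀ e K₀ N S' ∧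
      (∀ (τ : ℝ) (J : ℕ) (F : Fam n J) (A : F.Ω → Prop), S'.St τ J F A → S.St τ J F A) ∧
      ThrOf L S' P ∧ ∀ k, RateOf S' k (r k) := by
  obtain ⟨S', P, r, h1, h2, h3, h4⟩ := numxI hL h
  exact ⟨S', P, fun k => r k (univ.erase k), h1, h2, h3, fun k => (h4 k _).of⟩

/-- **Every counterexample has numbers.** -/
theorem exists_numL {L : LSys n} (hL : HasThr L) (h : BadX s d al g₀ ρ e S) :
    ∃ (P : L.ι → ℝ → ℝ → ℝ) (r : Fin n → ℝ → ℝ), NumL L s d al g₀ ρ e P r := by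
  obtain ⟨⟨K₀, N, h1⟩, -⟩ := id h
  obtain ⟨S₁, P, a1, a2, a3⟩ := hL S h1.ne
  obtain ⟨S₂, r, b1, b2, b3⟩ := rate_all (h1.sub a1 a2)
  exact ⟨P, r, S₂, h.sub b1 fun τ J F A hA => a2 τ J F A (b2 τ J F A hA), a3.sub b2, b3⟩

/-- **The limit numbers**, if the exactness theorem fails, for the labels `L`. -/
theorem limL_of_not (L : LSys n) (hL : HasThr L) (h : ¬ FTX n) :
    ∃ (ρ al : ℝ) (g₀ : ℝ → ℝ) (s : Fin n → ℝ) (d : ℕ → ℝ),
      0 < ρ ∧ 0 < al ∧ (∀ ε : ℝ, 0 < ε → 0 < g₀ ε) ∧ NumX s d ∧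
      ∃ (P : L.ι → ℝ → ℝ → ℝ) (r : Fin n → ℝ → ℝ), NumLaw (fun _ => 1) P r ∧
        (∀ k, LipschitzWith 1 (r k)) ∧ (∀ k, Monotone (r k)) ∧
        IsLim (NumL L s d al g₀ ρ) P r := by
  obtain ⟨ρ, al, g₀, s, d, h1, h2, h3, h4, h5⟩ := bad_of_not h
  refine ⟨ρ, al, g₀, s, d, h1, h2, h3, h4, ?_⟩
  obtain ⟨P, r, k1, k2, k3, k4⟩ := exists_lim (A := NumL L s d al g₀ ρ)
    (C := fun _ => 1) (fun e e' P r _ he hA => NumL.slack hA he)
    (fun e P r _ hA => NumL.law hA) (fun e he => by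
      obtain ⟨S, hS⟩ := h5 e he
      exact exists_numL hL hS)
  exact ⟨P, r, k1, k2, k3, k4⟩

/-- **The limit numbers**, if the exactness theorem fails. -/
theorem lim_of_not (θ : ℝ) (h : ¬ FTX n) :
    ∃ (ρ al : ℝ) (g₀ : ℝ → ℝ) (s : Fin n → ℝ) (d : ℕ → ℝ),
      0 < ρ ∧ 0 < al ∧ (∀ ε : ℝ, 0 < ε → 0 < g₀ ε) ∧ NumX s d ∧
      ∃ (P : List (Fin n) × Fin n → ℝ → ℝ → ℝ) (r : Fin n → ℝ → ℝ), NumLaw (fun _ => 1) P r ∧
        (∀ k, LipschitzWith 1 (r k)) ∧ (∀ k, Monotone (r k)) ∧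
        IsLim (NumA θ s d al g₀ ρ) P r :=
  limL_of_not (LbS n θ) (hasThr_LbS n θ) h

end Pool.ALL
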